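import Pool.Agent.N184.HK.Num
import Pool.Agent.W457.T4

/-!
# Simultaneous ordinary reduction of hyperkähler varieties
-/

set_option autoImplicit false

namespace Pool.Agent.N397.HO

open Module Polynomial NumberField IsDedekindDomain Filter Topology
open Pool.Agent.W401.Cheb Pool.Agent.W528.Ord Pool.Agent.N184.HK

section lin

variable {k V : Type} [Field k] [CharZero k] [AddCommGroup V] [Module k V] [FiniteDimensional k V]

/-- Powers of a unipotent operator, paired with a fixed operator: a polynomial in the exponent. -/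
lemma exists_poly {f : Module.End k V} (hf : IsNilpotent (f - 1)) (w : Module.End k V) :
    ∃ P : k[X], ∀ n : ℕ, LinearMap.trace k V (f ^ n * w) = P.eval (n : k) := by
  obtain ⟨D, hD⟩ := hf
  refine ⟨∑ i ∈ Finset.range D, C (((i.factorial : ℕ) : k)⁻¹ * LinearMap.trace k V ((f - 1) ^ i * w)) *
    descPochhammer k i, fun n => ?_⟩
  have h1 : f ^ n = ∑ i ∈ Finset.range (n + 1), (n.choose i : k) • (f - 1) ^ i := by
    have h := (Commute.one_right (f - 1)).add_pow n
    rw [sub_add_cancel] at h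
    rw [h]
    refine Finset.sum_congr rfl fun i _ => ?_
    rw [one_pow, mul_one, ← nsmul_eq_mul', Nat.cast_smul_eq_nsmul]
  have h2 : f ^ n = ∑ i ∈ Finset.range (n + 1 + D), (n.choose i : k) • (f - 1) ^ i := by
    rw [h1]
    refine Finset.sum_subset (Finset.range_mono (by omega)) fun i _ hi => ?_
    rw [Finset.mem_range, not_lt] at hi
    rw [Nat.choose_eq_zero_of_lt (by omega), Nat.cast_zero, zero_smul]
  have h3 : f ^ n = ∑ i ∈ Finset.range D, (n.choose i : k) • (f - 1) ^ i := by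
    rw [h2]
    symm
    refine Finset.sum_subset (Finset.range_mono (by omega)) fun i _ hi => ?_
    rw [Finset.mem_range, not_lt] at hi
    rw [pow_eq_zero_of_le hi hD, smul_zero]
  rw [h3, Finset.sum_mul, map_sum, eval_finsetSum]
  refine Finset.sum_congr rfl fun i _ => ?_
  rw [smul_mul_assoc, map_smul, eval_mul, eval_C, descPochhammer_eval_eq_descFactorial,
    Nat.descFactorial_eq_factorial_mul_choose, smul_eq_mul]
  have : ((i.factorial : ℕ) : k) ≠ 0 := by exact_mod_cast i.factorial_ne_zero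
  push_cast
  field_simp

/-- If the trace of `f ^ (1 + m j) w` does not depend on `j` then it is the trace of `w`. -/
lemma trace_of_progression {f : Module.End k V} (hf : IsNilpotent (f - 1)) (w : Module.End k V)
    {m : ℕ} (hm : 0 < m) {c : k} (h : ∀ j : ℕ, LinearMap.trace k V (f ^ (1 + m * j) * w) = c) :
    LinearMap.trace k V w = c := by
  obtain ⟨P, hP⟩ := exists_poly hf w
  have h1 : P = C c := by
    refine eq_of_infinite_eval_eq P (C c) ?_
    have hinj : Function.Injective (fun j : ℕ => ((1 + m * j : ℕ) : k)) := by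
      intro a b hab
      have hab' : ((1 + m * a : ℕ) : k) = ((1 + m * b : ℕ) : k) := hab
      have : (1 + m * a : ℕ) = 1 + m * b := Nat.cast_injective hab'
      have h2 : m * a = m * b := by omega
      exact Nat.eq_of_mul_eq_mul_left hm h2
    refine (Set.infinite_range_of_injective hinj).mono ?_
    rintro x ⟨j, rfl⟩
    rw [Set.mem_ofPred_eq, eval_C, ← hP, h j]
  have h2 := hP 0
  rw [pow_zero, one_mul, h1, eval_C] at h2
  exact h2

lemma trace_pow_of_unip {f : Module.End k V} (hf : IsNilpotent (f - 1)) (n : ℕ) :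
    LinearMap.trace k V (f ^ n) = (finrank k V : k) := by
  have h1 : IsNilpotent (f ^ n - 1) := by
    have : f ^ n - 1 = (f - 1) * ∑ i ∈ Finset.range n, f ^ i := (mul_geom_sum f n).symm
    rw [this]
    refine Commute.isNilpotent_mul_right ?_ hf
    exact Commute.sum_right _ _ _ fun i _ =>
      ((Commute.refl f).sub_left (Commute.one_left f)).pow_right i
  have h2 := LinearMap.isNilpotent_trace_of_isNilpotent h1
  have h3 := h2.eq_zero
  rw [map_sub, LinearMap.trace_one, sub_eq_zero] at h3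
  exact h3

lemma unip_of_trace {f : Module.End k V} (h : ∀ n : ℕ, LinearMap.trace k V (f ^ n) =
    (finrank k V : k)) : IsNilpotent (f - 1) := by
  refine Pool.Agent.W457.isNilpotent_of_trace_pow _ fun j => ?_
  have h1 : (f - 1) ^ (j + 1) = ∑ i ∈ Finset.range (j + 1 + 1),
      (((-1) ^ (j + 1 - i) * ((j + 1).choose i : k)) : k) • f ^ i := by
    have h2 := (Commute.neg_one_right f).add_pow (j + 1)
    rw [← sub_eq_add_neg] at h2
    rw [h2]
    refine Finset.sum_congr rfl fun i _ => ?_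
    rw [mul_smul, Nat.cast_smul_eq_nsmul, nsmul_eq_mul]
    rcases Nat.even_or_odd (j + 1 - i) with he | ho
    · rw [he.neg_one_pow, he.neg_one_pow, mul_one, one_smul, (Nat.cast_commute _ _).eq]
    · rw [ho.neg_one_pow, ho.neg_one_pow, mul_neg, mul_one, neg_smul, one_smul, neg_mul,
        (Nat.cast_commute _ _).eq]
  rw [h1, map_sum]
  simp only [map_smul, h, smul_eq_mul]
  rw [← Finset.sum_mul]
  have h3 := add_pow (1 : k) (-1) (j + 1)
  simp only [one_pow, one_mul, add_neg_cancel] at h3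
  rw [← h3, zero_pow (by omega), zero_mul]

end lin


section one

variable {K : Type} [Field K] [NumberField K] {ℓ : ℕ} [Fact ℓ.Prime] (X : Hyperkaehler K ℓ)

lemma tr_one : X.R.tr 1 = (finrank ℚ_[ℓ] X.R.V : ℚ_[ℓ]) := by
  rw [GalRep.tr, map_one, LinearMap.trace_one]

lemma tr_conj (σ τ : GK K) : X.R.tr (τ * σ * τ⁻¹) = X.R.tr σ := by
  rw [GalRep.tr, map_mul, LinearMap.trace_mul_comm, ← map_mul, ← mul_assoc, inv_mul_cancel, one_mul,
    GalRep.tr]

variable {v : HeightOneSpectrum (𝓞 K)} (hv : v ∉ X.bad)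

include hv in
/-- A Frobenius element with the trace of the identity is unipotent, as its eigenvalues have absolute
value one. -/
lemma unip_frob {σ : GK K} (hσ : IsFrob v σ) (ht : X.R.tr σ = X.R.tr 1) :
    IsNilpotent (X.R.r σ - 1) := by
  set N := Ideal.absNorm v.asIdeal with hN
  have hN0 : 0 < N := Nat.pos_of_ne_zero fun h => v.ne_bot (Ideal.absNorm_eq_zero_iff.1 h)
  have hNℓ : (N : ℚ_[ℓ]) ≠ 0 := by exact_mod_cast hN0.ne'
  -- the degree
  have hdeg : (X.poly v).natDegree = finrank ℚ_[ℓ] X.R.V := by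
    have h := X.poly_l v hv σ hσ
    have h1 := congrArg natDegree h
    rw [GalRep.cp, LinearMap.charpoly_natDegree,
      natDegree_map_eq_of_injective (RingHom.injective_int _)] at h1
    exact h1.symm
  -- the trace
  have h1 := trace_l X hv hσ
  rw [ht, tr_one] at h1
  have h2 : X.t v = (N : ℤ) * finrank ℚ_[ℓ] X.R.V := by
    have : ((X.t v : ℤ) : ℚ_[ℓ]) = (((N : ℤ) * finrank ℚ_[ℓ] X.R.V : ℤ) : ℚ_[ℓ]) := by
      rw [← h1]; push_cast; rfl
    exact_mod_cast this
  -- the complex roots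
  set m := ((X.poly v).map (Int.castRingHom ℂ)).roots with hm
  have hmon : ((X.poly v).map (Int.castRingHom ℂ)).Monic := (monic_poly X hv).map _
  have hsum : m.sum = (N : ℂ) * (finrank ℚ_[ℓ] X.R.V : ℂ) := by
    have h3 := (IsAlgClosed.splits ((X.poly v).map (Int.castRingHom ℂ))).nextCoeff_eq_neg_sum_roots_of_monic hmon
    rw [nextCoeff_map (RingHom.injective_int _)] at h3
    have h4 : ((X.t v : ℤ) : ℂ) = m.sum := by
      rw [Hyperkaehler.t]
      push_cast
      rw [← neg_eq_iff_eq_neg] at h3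
      simpa using h3
    rw [← h4, h2]
    push_cast
    rfl
  have hcard : Multiset.card m = finrank ℚ_[ℓ] X.R.V := by
    rw [← hdeg, hm, ← (IsAlgClosed.splits _).natDegree_eq_card_roots,
      natDegree_map_eq_of_injective (RingHom.injective_int _)]
  have hall : ∀ z ∈ m, z = (N : ℂ) := by
    have hnorm : ∀ z ∈ m, ‖z‖ = N := fun z hz => X.weil v hv z hz
    have hre : (m.map (fun z : ℂ => (N : ℝ) - z.re)).sum = 0 := by
      have h5 : (m.map (fun z : ℂ => (N : ℝ) - z.re)).sum =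
          (Multiset.card m) * (N : ℝ) - m.sum.re := by
        clear_value m
        clear hm hsum hcard hnorm
        induction m using Multiset.induction_on with
        | empty => simp
        | cons a s ih =>
          rw [Multiset.map_cons, Multiset.sum_cons, ih, Multiset.card_cons, Multiset.sum_cons,
            Complex.add_re]
          push_cast
          ring
      rw [h5, hcard, hsum]
      have : ((N : ℂ) * (finrank ℚ_[ℓ] X.R.V : ℂ)).re = (N : ℝ) * finrank ℚ_[ℓ] X.R.V := by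
        rw [← Nat.cast_mul, Complex.natCast_re]
        push_cast
        rfl
      rw [this]
      ring
    have hnn : ∀ x ∈ m.map (fun z : ℂ => (N : ℝ) - z.re), 0 ≤ x := by
      intro x hx
      obtain ⟨z, hz, rfl⟩ := Multiset.mem_map.1 hx
      have := Complex.re_le_norm z
      rw [hnorm z hz] at this
      linarith
    intro z hz
    have h6 : (N : ℝ) - z.re = 0 := by
      have hle := Multiset.single_le_sum hnn _ (Multiset.mem_map_of_mem _ hz)
      rw [hre] at hle
      have := hnn _ (Multiset.mem_map_of_mem _ hz)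
      linarith
    have h7 : z.re = N := by linarith
    have h8 := hnorm z hz
    have h9 : z.im = 0 := by
      have h10 := Complex.sq_norm z
      rw [h8, Complex.normSq_apply, h7] at h10
      nlinarith
    apply Complex.ext
    · rw [h7, Complex.natCast_re]
    · rw [h9, Complex.natCast_im]
  have hpC : (X.poly v).map (Int.castRingHom ℂ) =
      ((Polynomial.X - C (N : ℤ)) ^ (finrank ℚ_[ℓ] X.R.V) : ℤ[X]).map (Int.castRingHom ℂ) := by
    have h3 := (IsAlgClosed.splits ((X.poly v).map (Int.castRingHom ℂ))).eq_prod_roots_of_monic hmon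
    rw [← hm, Multiset.eq_replicate.2 ⟨hcard, hall⟩] at h3
    rw [h3, Multiset.map_replicate, Multiset.prod_replicate]
    simp
  have hp := Polynomial.map_injective _ (RingHom.injective_int (Int.castRingHom ℂ)) hpC
  -- Cayley-Hamilton
  have h3 := X.poly_l v hv σ hσ
  rw [GalRep.cp, hp] at h3
  have h4 := LinearMap.aeval_self_charpoly ((N : ℚ_[ℓ]) • X.R.r σ)
  rw [← hN] at h3
  rw [h3] at h4
  simp only [Polynomial.map_pow, Polynomial.map_sub, map_X, map_C, map_pow, map_sub, aeval_X,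
    aeval_C] at h4
  refine ⟨finrank ℚ_[ℓ] X.R.V, ?_⟩
  have h5 : (N : ℚ_[ℓ]) • X.R.r σ - algebraMap ℚ_[ℓ] (Module.End ℚ_[ℓ] X.R.V) ((Int.castRingHom ℚ_[ℓ]) (N : ℤ)) =
      (N : ℚ_[ℓ]) • (X.R.r σ - 1) := by
    rw [smul_sub, Algebra.algebraMap_eq_smul_one]
    simp
  rw [h5, _root_.smul_pow] at h4
  exact (smul_eq_zero.1 h4).resolve_left (pow_ne_zero _ hNℓ)

/-- An open set which contains Frobenius elements: there is one at a good place. -/
lemma exists_frob (O : Set (GK K)) (hO : IsOpen O) (hc : ∀ σ ∈ O, ∀ τ, τ * σ * τ⁻¹ ∈ O)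
    (hne : O.Nonempty) : ∃ v : HeightOneSpectrum (𝓞 K), v ∉ X.bad ∧ ∃ σ ∈ O, IsFrob v σ := by
  obtain ⟨δ, hδ, hev⟩ := cheb_open O hO hc hne
  have h3 := dens_finite (fun v => v ∈ X.bad) X.finite
  obtain ⟨N, h1, h2⟩ := (hev.and (h3.eventually (gt_mem_nhds hδ))).exists
  by_contra hno
  push Not at hno
  have hle : dens (fun v : HeightOneSpectrum (𝓞 K) => ∃ σ ∈ O, IsFrob v σ) N ≤
      dens (fun v => v ∈ X.bad) N := by
    refine dens_mono ?_ N
    rintro v ⟨σ, hσ, hf⟩
    by_contra hb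
    exact hno v hb σ hσ hf
  linarith

/-- If the trace is the one of the identity on an open set then its elements are unipotent. -/
lemma unip_of_open {O : Set (GK K)} (hO : IsOpen O) (h : ∀ σ ∈ O, X.R.tr σ = X.R.tr 1) {g : GK K}
    (hg : g ∈ O) : IsNilpotent (X.R.r g - 1) := by
  refine unip_of_trace fun n => ?_
  rw [← map_pow, ← tr_one]
  change X.R.tr (g ^ n) = X.R.tr 1
  by_contra hne
  let O1 : Set (GK K) := {σ | (∃ τ, τ * σ * τ⁻¹ ∈ O) ∧ X.R.tr (σ ^ n) ≠ X.R.tr 1}
  have hO1 : IsOpen O1 := by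
    have e : O1 = (⋃ τ, (fun σ => τ * σ * τ⁻¹) ⁻¹' O) ∩ ((fun σ => X.R.tr (σ ^ n)) ⁻¹' {X.R.tr 1}ᶜ) := by
      ext σ
      simp [O1]
    rw [e]
    refine (isOpen_iUnion fun τ => hO.preimage ?_).inter (isOpen_compl_singleton.preimage ?_)
    · fun_prop
    · exact X.cont.comp (continuous_pow n)
  have hc : ∀ σ ∈ O1, ∀ τ, τ * σ * τ⁻¹ ∈ O1 := by
    rintro σ ⟨⟨τ', h1⟩, h2⟩ τ
    refine ⟨⟨τ' * τ⁻¹, ?_⟩, ?_⟩
    · have : τ' * τ⁻¹ * (τ * σ * τ⁻¹) * (τ' * τ⁻¹)⁻¹ = τ' * σ * τ'⁻¹ := by group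
      rw [this]
      exact h1
    · rw [conj_pow, tr_conj]
      exact h2
  obtain ⟨v, hv, σ, ⟨⟨τ, h1⟩, h2⟩, hf⟩ := exists_frob X O1 hO1 hc ⟨g, ⟨1, by simpa using hg⟩, hne⟩
  have h3 : X.R.tr σ = X.R.tr 1 := by
    rw [← tr_conj X σ τ]
    exact h _ h1
  have h4 := trace_pow_of_unip (unip_frob X hv hf h3) n
  rw [← map_pow, ← tr_one] at h4
  exact h2 h4

/-- The trace is not equal to the trace of the identity on a nonempty open set. -/
lemma not_const {O : Set (GK K)} (hO : IsOpen O) (hne : O.Nonempty) :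
    ∃ σ ∈ O, X.R.tr σ ≠ X.R.tr 1 := by
  by_contra hno
  push Not at hno
  obtain ⟨g, hg⟩ := hne
  have hO1 : IsOpen ((fun x => g * x) ⁻¹' O) := hO.preimage (continuous_const_mul g)
  obtain ⟨U, hU⟩ := ProfiniteGrp.exist_openNormalSubgroup_sub_open_nhds_of_one hO1
    (by simpa using hg)
  have hUo : IsOpen (U.toSubgroup : Set (GK K)) := U.isOpen'
  have : Finite (GK K ⧸ U.toSubgroup) := Subgroup.quotient_finite_of_isOpen _ hUo
  have hidx : U.toSubgroup.index ≠ 0 := Subgroup.index_ne_zero_of_finite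
  obtain ⟨m, hm0, -, hm⟩ := Subgroup.exists_pow_mem_of_index_ne_zero hidx g
  obtain ⟨w, hw, hw2⟩ := X.nonconst _ hUo (one_mem U.toSubgroup)
  apply hw2
  refine trace_of_progression (unip_of_open X hO hno hg) (X.R.r w) hm0 (c := X.R.tr 1) fun j => ?_
  rw [← map_pow, ← map_mul]
  change X.R.tr (g ^ (1 + m * j) * w) = X.R.tr 1
  refine hno _ ?_
  have h1 : (g ^ m) ^ j * w ∈ U.toSubgroup := mul_mem (pow_mem hm j) hw
  have h2 := hU h1
  have e : g ^ (1 + m * j) * w = g * ((g ^ m) ^ j * w) := by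
    rw [pow_add, pow_one, pow_mul, mul_assoc]
  rw [e]
  exact h2

end one

section many

variable {K : Type} [Field K] [NumberField K] {ℓ : ℕ} [Fact ℓ.Prime] {ι : Type}
  (X : ι → Hyperkaehler K ℓ)

lemma exists_avoid (s : Finset ι) (O : Set (GK K)) (hO : IsOpen O) (hne : O.Nonempty) :
    ∃ O' ⊆ O, IsOpen O' ∧ O'.Nonempty ∧ ∀ σ ∈ O', ∀ j ∈ s, (X j).R.tr σ ≠ (X j).R.tr 1 := by
  classical
  induction s using Finset.induction_on with
  | empty => exact ⟨O, subset_rfl, hO, hne, by simp⟩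
  | insert j s _ ih =>
    obtain ⟨O', h1, h2, h3, h4⟩ := ih
    obtain ⟨σ, hσ, hσ2⟩ := not_const (X j) h2 h3
    refine ⟨O' ∩ (fun σ => (X j).R.tr σ) ⁻¹' {(X j).R.tr 1}ᶜ, Set.inter_subset_left.trans h1,
      h2.inter (isOpen_compl_singleton.preimage (X j).cont), ⟨σ, hσ, hσ2⟩, ?_⟩
    rintro τ ⟨hτ, hτ2⟩ i hi
    rcases Finset.mem_insert.1 hi with rfl | hi
    · exact hτ2
    · exact h4 τ hτ i hi

/-- Finitely many hyperkähler varieties over the same number field have a set of common ordinary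
places of positive density, even among the places with Frobenius elements in a given neighbourhood `U`
of the identity. -/
theorem common_dens [Finite ι] {U : Set (GK K)} (hU : IsOpen U) (hU1 : 1 ∈ U) :
    ∃ δ : ℝ, 0 < δ ∧ ∀ᶠ N : ℕ in atTop, δ ≤
    dens (fun v : HeightOneSpectrum (𝓞 K) => (∃ σ ∈ U, IsFrob v σ) ∧ ∀ j, ∃ hv : v ∉ (X j).bad,
      ∀ i ≤ (X j).d, (X j).OrdinaryIn v hv i) N := by
  classical
  have := Fintype.ofFinite ι
  obtain ⟨W, hW⟩ := ProfiniteGrp.exist_openNormalSubgroup_sub_open_nhds_of_one hU hU1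
  have hWo : IsOpen (W.toSubgroup : Set (GK K)) := W.isOpen'
  let F : ι → Set ℚ_[ℓ] := fun j => (fun k : ℤ => (k : ℚ_[ℓ])) '' {k | |k| ≤ (X j).b 2}
  have hF : ∀ j, (F j).Finite := by
    intro j
    refine Set.Finite.image _ ((Set.finite_Icc (-((X j).b 2 : ℤ)) ((X j).b 2)).subset fun k hk => ?_)
    exact ⟨(abs_le.1 hk).1, (abs_le.1 hk).2⟩
  let O : Set (GK K) := (W.toSubgroup : Set (GK K)) ∩ ⋂ j, (fun σ => (X j).R.tr σ) ⁻¹' (F j)ᶜ
  have hO : IsOpen O :=
    hWo.inter (isOpen_iInter_of_finite fun j =>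
      (hF j).isClosed.isOpen_compl.preimage (X j).cont)
  have hconj : ∀ σ ∈ O, ∀ τ, τ * σ * τ⁻¹ ∈ O := by
    intro σ hσ τ
    refine ⟨W.isNormal'.conj_mem σ hσ.1 τ, Set.mem_iInter.2 fun j => ?_⟩
    change (X j).R.tr (τ * σ * τ⁻¹) ∈ (F j)ᶜ
    rw [tr_conj]
    exact Set.mem_iInter.1 hσ.2 j
  have hne : O.Nonempty := by
    let O1 : Set (GK K) := (W.toSubgroup : Set (GK K)) ∩
      ⋂ j, (fun σ => (X j).R.tr σ) ⁻¹' (F j \ {(X j).R.tr 1})ᶜ
    have hO1 : IsOpen O1 :=
      hWo.inter (isOpen_iInter_of_finite fun j =>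
        ((hF j).subset Set.sdiff_subset).isClosed.isOpen_compl.preimage (X j).cont)
    have h1 : (1 : GK K) ∈ O1 :=
      ⟨one_mem W.toSubgroup, Set.mem_iInter.2 fun j => fun h => h.2 rfl⟩
    obtain ⟨O', h2, -, ⟨σ, hσ⟩, h3⟩ := exists_avoid X Finset.univ O1 hO1 ⟨1, h1⟩
    refine ⟨σ, (h2 hσ).1, Set.mem_iInter.2 fun j => fun h4 => ?_⟩
    exact Set.mem_iInter.1 (h2 hσ).2 j ⟨h4, h3 σ hσ j (Finset.mem_univ j)⟩
  obtain ⟨δ, hδ, hev⟩ := cheb_open O hO hconj hne
  refine ⟨δ / 2, by positivity, ?_⟩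
  have hfin : {v : HeightOneSpectrum (𝓞 K) | ∃ j, v ∈ (X j).bad}.Finite := by
    have : {v : HeightOneSpectrum (𝓞 K) | ∃ j, v ∈ (X j).bad} = ⋃ j, (X j).bad := by
      ext v; simp
    rw [this]
    exact Set.finite_iUnion fun j => (X j).finite
  have h2 := dens_not_prime (K := K)
  have h3 := dens_finite (fun v => ∃ j, v ∈ (X j).bad) hfin
  filter_upwards [hev, h2.eventually (gt_mem_nhds (show (0:ℝ) < δ / 4 by positivity)),
    h3.eventually (gt_mem_nhds (show (0:ℝ) < δ / 4 by positivity))] with N h0 h2 h3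
  have hle : dens (fun v : HeightOneSpectrum (𝓞 K) => ∃ σ ∈ O, IsFrob v σ) N ≤
      dens (fun v => (∃ σ ∈ U, IsFrob v σ) ∧ ∀ j, ∃ hv : v ∉ (X j).bad,
        ∀ i ≤ (X j).d, (X j).OrdinaryIn v hv i) N +
      (dens (fun v : HeightOneSpectrum (𝓞 K) => ¬ (Ideal.absNorm v.asIdeal).Prime) N +
      dens (fun v => ∃ j, v ∈ (X j).bad) N) := by
    refine le_trans (dens_mono (Q := fun v => _ ∨ (_ ∨ _)) ?_ N)
      (le_trans (dens_or _ _ N) (add_le_add_right (dens_or _ _ N) _))
    rintro v ⟨σ, hσ, hfr⟩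
    by_cases hp : (Ideal.absNorm v.asIdeal).Prime
    · by_cases hb : ∃ j, v ∈ (X j).bad
      · exact Or.inr (Or.inr hb)
      · push Not at hb
        refine Or.inl ⟨⟨σ, hW hσ.1, hfr⟩, fun j => ⟨hb j, (ordinary_iff (X j) (hb j)).1 ?_⟩⟩
        by_contra hno
        obtain ⟨k, hk, ht⟩ := trace_int (X j) (hb j) hp hno hfr
        exact Set.mem_iInter.1 hσ.2 j ⟨k, hk, ht.symm⟩
    · exact Or.inr (Or.inl hp)
  linarith

lemma dens_exists {κ : Type} (s : Finset κ) (P : κ → HeightOneSpectrum (𝓞 K) → Prop)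
    (h : ∀ k ∈ s, Tendsto (dens (P k)) atTop (𝓝 0)) :
    Tendsto (dens (fun v => ∃ k ∈ s, P k v)) atTop (𝓝 0) := by
  classical
  induction s using Finset.induction_on with
  | empty => exact dens_finite _ (by simp)
  | insert k s _ ih =>
    have h1 := h k (Finset.mem_insert_self k s)
    have h2 := ih fun i hi => h i (Finset.mem_insert_of_mem hi)
    have h3 := h1.add h2
    rw [add_zero] at h3
    refine squeeze_zero (fun N => ?_) (fun N => ?_) h3
    · unfold dens
      positivity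
    · refine le_trans (dens_mono (Q := fun v => P k v ∨ ∃ i ∈ s, P i v) ?_ N) (dens_or _ _ N)
      rintro v ⟨i, hi, hv⟩
      rcases Finset.mem_insert.1 hi with rfl | hi
      · exact Or.inl hv
      · exact Or.inr ⟨i, hi, hv⟩

end many

end Pool.Agent.N397.HO
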