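import Mathlib

/-!
# Points with values in number fields, and their reductions
-/

set_option autoImplicit false

namespace Pool.Agent.N397.HO

open NumberField IsDedekindDomain

/-- The point `φ` of `Spec A` with values in the number field `K` is integral at the place `v`, and
`s` is its reduction modulo `v`. -/
def IsReduction {A K : Type} [CommRing A] [Field K] [NumberField K] (φ : A →+* K)
    (v : HeightOneSpectrum (𝓞 K)) (s : Ideal A) : Prop :=
  ∀ a, v.valuation K (φ a) ≤ 1 ∧ (a ∈ s ↔ v.valuation K (φ a) < 1)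

section

variable {A K : Type} [CommRing A] [Field K] [NumberField K]

lemma mlt {a b : WithZero (Multiplicative ℤ)} (ha : a < 1) (hb : b ≤ 1) : a * b < 1 :=
  (mul_le_of_le_one_right' hb).trans_lt ha

lemma mlt' {a b : WithZero (Multiplicative ℤ)} (ha : a ≤ 1) (hb : b < 1) : a * b < 1 :=
  (mul_le_of_le_one_left' ha).trans_lt hb

lemma exists_pow {v : HeightOneSpectrum (𝓞 K)} {x : K} (hx : v.valuation K x = 1) :
    ∃ m : ℕ, 0 < m ∧ v.valuation K (x ^ m - 1) < 1 := by
  obtain ⟨y, hy⟩ : ∃ a : 𝓞 K, v.valuation K (x - algebraMap (𝓞 K) K a) < 1 := by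
    obtain ⟨a, ha⟩ := v.exists_valuation_sub_lt_of_integer (K := K) hx.le (γ := 1)
    refine ⟨a, ?_⟩
    rw [← Valuation.map_neg, neg_sub]
    simpa using ha
  have hyv : y ∉ v.asIdeal := by
    intro h
    have h1 := (v.valuation_lt_one_iff_mem (K := K) y).2 h
    have h2 := (v.valuation K).map_add (x - algebraMap (𝓞 K) K y) (algebraMap (𝓞 K) K y)
    rw [sub_add_cancel, hx] at h2
    exact absurd h2 (not_le.2 (max_lt hy h1))
  have := v.isPrime
  have : v.asIdeal.IsMaximal := v.isMaximal
  letI := Ideal.Quotient.field v.asIdeal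
  have : Finite (𝓞 K ⧸ v.asIdeal) := Ideal.finiteQuotientOfFreeOfNeBot v.asIdeal v.ne_bot
  have hne : (Ideal.Quotient.mk v.asIdeal y) ≠ 0 := fun h => hyv (Ideal.Quotient.eq_zero_iff_mem.1 h)
  obtain ⟨m, hm, hm1⟩ := (isOfFinOrder_of_finite (Units.mk0 _ hne)).exists_pow_eq_one
  refine ⟨m, hm, ?_⟩
  have h3 : v.valuation K (algebraMap (𝓞 K) K (y ^ m - 1)) < 1 := by
    rw [v.valuation_lt_one_iff_mem]
    rw [← Ideal.Quotient.eq_zero_iff_mem, map_sub, map_pow, map_one, sub_eq_zero]
    have := congrArg Units.val hm1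
    simpa using this
  obtain ⟨z, hz⟩ := sub_dvd_pow_sub_pow x (algebraMap (𝓞 K) K y) m
  have hx1 : v.valuation K x ≤ 1 := hx.le
  have hy1 : v.valuation K (algebraMap (𝓞 K) K y) ≤ 1 := v.valuation_le_one y
  have h4 : v.valuation K (x ^ m - (algebraMap (𝓞 K) K y) ^ m) < 1 := by
    rw [← Commute.geom_sum₂_mul (Commute.all _ _), map_mul]
    refine mlt' (Valuation.map_sum_le _ fun i _ => ?_) hy
    rw [map_mul, map_pow, map_pow]
    exact mul_le_one' (pow_le_one' hx1 _) (pow_le_one' hy1 _)
  have h5 : x ^ m - 1 = (x ^ m - (algebraMap (𝓞 K) K y) ^ m) + algebraMap (𝓞 K) K (y ^ m - 1) := by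
    rw [map_sub, map_pow, map_one]; ring
  rw [h5]
  exact (Valuation.map_add _ _ _).trans_lt (max_lt h4 h3)

lemma exists_reduction (φ : A →+* K) (v : HeightOneSpectrum (𝓞 K))
    (h : ∀ a, v.valuation K (φ a) ≤ 1) :
    ∃ s : PrimeSpectrum A, s.asIdeal.IsMaximal ∧ IsReduction φ v s.asIdeal := by
  let I : Ideal A :=
    { carrier := {a | v.valuation K (φ a) < 1}
      add_mem' := by
        intro a b ha hb
        change v.valuation K (φ (a + b)) < 1
        rw [map_add]
        exact (Valuation.map_add _ _ _).trans_lt (max_lt ha hb)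
      zero_mem' := by
        change v.valuation K (φ 0) < 1
        rw [map_zero, map_zero]
        exact zero_lt_one
      smul_mem' := by
        intro c a ha
        change v.valuation K (φ (c * a)) < 1
        rw [map_mul, map_mul]
        exact mlt' (h c) ha }
  have hI : ∀ a, a ∈ I ↔ v.valuation K (φ a) < 1 := fun a => Iff.rfl
  have hmax : I.IsMaximal := by
    rw [Ideal.isMaximal_iff]
    constructor
    · rw [hI, map_one, map_one]
      exact lt_irrefl _
    · intro J x hIJ hx hxJ
      rw [hI, not_lt] at hx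
      obtain ⟨m, hm, h1⟩ := exists_pow (le_antisymm (h x) hx)
      have h2 : x ^ m - 1 ∈ J := hIJ (by rw [hI, map_sub, map_pow, map_one]; exact h1)
      have h3 : x ^ m ∈ J := J.pow_mem_of_mem hxJ m hm
      have h4 := J.sub_mem h3 h2
      rwa [sub_sub_cancel] at h4
  exact ⟨⟨I, hmax.isPrime⟩, hmax, fun a => ⟨h a, hI a⟩⟩

lemma finite_nonint [Algebra.FiniteType ℤ A] (φ : A →+* K) :
    {v : HeightOneSpectrum (𝓞 K) | ¬ ∀ a, v.valuation K (φ a) ≤ 1}.Finite := by
  obtain ⟨t, ht⟩ := (Algebra.FiniteType.out : (⊤ : Subalgebra ℤ A).FG)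
  refine (Set.Finite.biUnion t.finite_toSet fun a _ =>
    HeightOneSpectrum.Support.finite (𝓞 K) (φ a)).subset ?_
  intro v hv
  by_contra hno
  simp only [Set.mem_iUnion, not_exists] at hno
  apply hv
  intro a
  have ha : a ∈ Algebra.adjoin ℤ (t : Set A) := by rw [ht]; trivial
  induction ha using Algebra.adjoin_induction with
  | mem x hx => exact not_lt.1 fun h => hno x hx h
  | algebraMap r =>
    have : φ (algebraMap ℤ A r) = algebraMap (𝓞 K) K (r : 𝓞 K) := by simp
    rw [this]
    exact v.valuation_le_one _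
  | add x y _ _ hx hy =>
    rw [map_add]
    exact (Valuation.map_add _ _ _).trans (max_le hx hy)
  | mul x y _ _ hx hy =>
    rw [map_mul, map_mul]
    exact mul_le_one' hx hy

lemma finite_small {x : K} (hx : x ≠ 0) :
    {v : HeightOneSpectrum (𝓞 K) | v.valuation K x < 1}.Finite := by
  refine (HeightOneSpectrum.Support.finite (𝓞 K) x⁻¹).subset ?_
  intro v hv
  change 1 < v.valuation K x⁻¹
  rw [map_inv₀]
  have h0 : v.valuation K x ≠ 0 := (Valuation.ne_zero_iff _).2 hx
  exact (one_lt_inv₀ (zero_lt_iff.2 h0)).2 hv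

end

/-- A nonzero finitely generated algebra over the rational numbers has a point with values in a number
field. -/
lemma exists_nf (B : Type) [CommRing B] [Nontrivial B] [Algebra ℚ B] [Algebra.FiniteType ℚ B] :
    ∃ (K : Type) (_ : Field K) (_ : NumberField K), Nonempty (B →+* K) := by
  obtain ⟨m, hm⟩ := Ideal.exists_maximal B
  let := Ideal.Quotient.field m
  have hfin : Module.Finite ℚ (B ⧸ m) := finite_of_finite_type_of_isJacobsonRing ℚ (B ⧸ m)
  have hcz : CharZero (B ⧸ m) := algebraRat.charZero _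
  refine ⟨B ⧸ m, inferInstance, ?_, ⟨Ideal.Quotient.mk m⟩⟩
  refine { to_charZero := hcz, to_finiteDimensional := ?_ }
  have e : ∀ (M1 M2 : Module ℚ (B ⧸ m)), @Module.Finite ℚ (B ⧸ m) _ _ M1 →
      @Module.Finite ℚ (B ⧸ m) _ _ M2 := by
    intro M1 M2 h
    rwa [Subsingleton.elim M2 M1]
  exact e _ _ hfin

/-- A finitely generated domain of characteristic zero has points with values in number fields in every
nonempty open set. -/
lemma exists_point {A : Type} [CommRing A] [IsDomain A] [CharZero A] [Algebra.FiniteType ℤ A]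
    {g : A} (hg : g ≠ 0) :
    ∃ (K : Type) (_ : Field K) (_ : NumberField K) (φ : A →+* K), φ g ≠ 0 := by
  classical
  obtain ⟨t, ht⟩ := (Algebra.FiniteType.out : (⊤ : Subalgebra ℤ A).FG)
  let F := FractionRing A
  have hinj : Function.Injective (algebraMap A F) := FaithfulSMul.algebraMap_injective A F
  have : CharZero F := charZero_of_injective_algebraMap hinj
  let S : Finset F := insert (algebraMap A F g)⁻¹ (t.image (algebraMap A F))
  let B : Subalgebra ℚ F := Algebra.adjoin ℚ (S : Set F)
  have hBf : Algebra.FiniteType ℚ B := (Subalgebra.fg_iff_finiteType B).1 ⟨S, rfl⟩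
  have hmem : ∀ a : A, algebraMap A F a ∈ B := by
    intro a
    have ha : a ∈ Algebra.adjoin ℤ (t : Set A) := by rw [ht]; trivial
    induction ha using Algebra.adjoin_induction with
    | mem x hx =>
      refine Algebra.subset_adjoin ?_
      simp only [S, Finset.coe_insert, Finset.coe_image]
      exact Or.inr ⟨x, hx, rfl⟩
    | algebraMap r =>
      have : algebraMap A F (algebraMap ℤ A r) = ((r : ℤ) : F) := by simp
      rw [this]
      exact intCast_mem B r
    | add x y _ _ hx hy => rw [map_add]; exact B.add_mem hx hy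
    | mul x y _ _ hx hy => rw [map_mul]; exact B.mul_mem hx hy
  have hg1 : (algebraMap A F g)⁻¹ ∈ B := Algebra.subset_adjoin (by simp [S])
  have hg0 : algebraMap A F g ≠ 0 := fun h => hg (hinj (by rw [h, map_zero]))
  let f : A →+* B := (algebraMap A F).codRestrict B hmem
  have hf : f g * ⟨_, hg1⟩ = 1 := Subtype.ext (mul_inv_cancel₀ hg0)
  obtain ⟨K, i1, i2, ⟨ψ⟩⟩ := exists_nf B
  refine ⟨K, i1, i2, ψ.comp f, fun h => ?_⟩
  have h2 := congrArg ψ hf
  rw [map_mul, map_one] at h2
  have h3 : ψ (f g) = 0 := h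
  rw [h3, zero_mul] at h2
  exact zero_ne_one h2

end Pool.Agent.N397.HO
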