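import Pool.Agent.N397.HO.Common
import Pool.Agent.N397.HO.Pts

/-!
# Families of smooth projective varieties over `Spec A` built from hyperkähler varieties
-/

set_option autoImplicit false

namespace Pool.Agent.N397.HO

open Module NumberField IsDedekindDomain Filter Topology
open Pool.Agent.W401.Cheb Pool.Agent.W528.Ord Pool.Agent.N184.HK

/-- The Newton polygon with the slopes `n` lies on or above the Hodge polygon with the slopes `h`, and
both have the same end point. -/
def Above (n h : Multiset ℚ) : Prop :=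
  n.card = h.card ∧ n.sum = h.sum ∧
    ∀ k : ℕ, ((h.sort (· ≤ ·)).take k).sum ≤ ((n.sort (· ≤ ·)).take k).sum

lemma maj_multiset {n h : Multiset ℚ} (H : Above n h) :
    (n.map (fun x => x ^ 2)).sum ≤ (h.map (fun x => x ^ 2)).sum ∧
      ((h.map (fun x => x ^ 2)).sum ≤ (n.map (fun x => x ^ 2)).sum → n = h) := by
  obtain ⟨h1, h2, h3⟩ := H
  set ln := n.sort (· ≤ ·) with hln
  set lh := h.sort (· ≤ ·) with hlh
  have e1 : ln.length = lh.length := by rw [hln, hlh, Multiset.length_sort, Multiset.length_sort, h1]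
  have cn : (ln : Multiset ℚ) = n := Multiset.sort_eq _ _
  have ch : (lh : Multiset ℚ) = h := Multiset.sort_eq _ _
  let a : Fin ln.length → ℚ := ln.get
  let b : Fin ln.length → ℚ := fun j => lh.get (Fin.cast e1 j)
  have oa : List.ofFn a = ln := List.ofFn_get ln
  have ob : List.ofFn b = lh := by
    apply List.ext_get
    · simp [e1]
    · intro i _ _
      simp [b]
  have sa : ∀ f : ℚ → ℚ, ∑ j, f (a j) = (n.map f).sum := by
    intro f
    rw [← cn, Multiset.map_coe, Multiset.sum_coe, ← List.sum_ofFn]
    conv_rhs => rw [← oa]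
    rw [List.map_ofFn]
    rfl
  have sb : ∀ f : ℚ → ℚ, ∑ j, f (b j) = (h.map f).sum := by
    intro f
    rw [← ch, Multiset.map_coe, Multiset.sum_coe, ← List.sum_ofFn]
    conv_rhs => rw [← ob]
    rw [List.map_ofFn]
    rfl
  have mono : Monotone a := by
    intro i j hij
    exact (Multiset.pairwise_sort n (· ≤ ·)).rel_get_of_le hij
  have habove : ∀ k : ℕ, ∑ j ∈ Finset.univ.filter (fun j : Fin ln.length => (j : ℕ) < k), b j ≤
      ∑ j ∈ Finset.univ.filter (fun j : Fin ln.length => (j : ℕ) < k), a j := by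
    intro k
    have := h3 k
    have t1 := List.sum_take_ofFn a k
    have t2 := List.sum_take_ofFn b k
    rw [oa] at t1
    rw [ob] at t2
    rw [t1, t2] at this
    exact this
  have hend : ∑ j, a j = ∑ j, b j := by
    have i1 := sa (fun x => x)
    have i2 := sb (fun x => x)
    simp only [Multiset.map_id'] at i1 i2
    rw [i1, i2, h2]
  obtain ⟨m1, m2⟩ := t_maj ln.length a b mono habove hend
  have q1 := sa (fun x => x ^ 2)
  have q2 := sb (fun x => x ^ 2)
  constructor
  · rw [← q1, ← q2]; exact m1
  · intro hle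
    rw [← q1, ← q2] at hle
    have hab := m2 hle
    rw [← cn, ← ch, ← oa, ← ob, hab]

/-- The numerical data of a smooth projective family `V` over `Spec A` (`A` is localized, so that the
Hodge cohomology is locally free): `hodge i` is the multiset of the numbers `p`, each with
multiplicity `h^{p, i - p}`; for a closed point `s`, `newton s i` is the multiset of the slopes of the
Frobenius on the crystalline cohomology `H^i` of the fibre `V_s`. -/
structure Fam (A : Type) [CommRing A] where
  hodge : ℕ → Multiset ℚ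
  newton : PrimeSpectrum A → ℕ → Multiset ℚ

/-- The fibre over `s` is ordinary: the Newton polygon is the Hodge polygon in all degrees. -/
def Fam.Ord {A : Type} [CommRing A] (V : Fam A) (s : PrimeSpectrum A) : Prop :=
  ∀ i, V.newton s i = V.hodge i

/-- A projective family `X → Spec A` of hyperkähler varieties (irreducible symplectic varieties,
`b_2 ≥ 3`, or abelian surfaces) of dimension `d / 2`: for every point `φ` of `Spec A` with values in a
number field the fibre is a hyperkähler variety over this number field, with the same Hodge numbers; at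
a good place `v` the Newton slopes are the ones of the fibre over the closed point of `Spec A` which
is the reduction of `φ`. -/
structure HKFamily (A : Type) [CommRing A] (ℓ : ℕ) [Fact ℓ.Prime] where
  d : ℕ
  hodge : ℕ → Multiset ℚ
  newton : PrimeSpectrum A → ℕ → Multiset ℚ
  fibre : ∀ (K : Type) [Field K] [NumberField K], (A →+* K) → Hyperkaehler K ℓ
  fibre_d : ∀ (K : Type) [Field K] [NumberField K] (φ : A →+* K), (fibre K φ).d = d
  fibre_hodge : ∀ (K : Type) [Field K] [NumberField K] (φ : A →+* K), ∀ i ≤ d,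
    Finset.univ.val.map ((fibre K φ).hs i) = hodge i
  fibre_newton : ∀ (K : Type) [Field K] [NumberField K] (φ : A →+* K)
    (v : HeightOneSpectrum (𝓞 K)) (hv : v ∉ (fibre K φ).bad) (s : PrimeSpectrum A),
    IsReduction φ v s.asIdeal → ∀ i ≤ d,
      Finset.univ.val.map (((fibre K φ).place v hv).ns i) = newton s i

section

variable {A : Type} [CommRing A]

/-- The numerical data of a family of hyperkähler varieties. -/
def HKFamily.fam {ℓ : ℕ} [Fact ℓ.Prime] (X : HKFamily A ℓ) : Fam A where
  hodge i := if i ≤ X.d then X.hodge i else 0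
  newton s i := if i ≤ X.d then X.newton s i else 0

/-- Künneth formula: the sums of the slopes in complementary degrees. -/
def kun (a b : ℕ → Multiset ℚ) (n : ℕ) : Multiset ℚ :=
  ∑ ij ∈ Finset.HasAntidiagonal.antidiagonal n, (a ij.1 ×ˢ b ij.2).map (fun x => x.1 + x.2)

/-- The product of two families. -/
def Fam.prod (V W : Fam A) : Fam A where
  hodge := kun V.hodge W.hodge
  newton s := kun (V.newton s) (W.newton s)

/-- The direct sum of the cohomology of two families. -/
def Fam.sum (V W : Fam A) : Fam A where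
  hodge i := V.hodge i + W.hodge i
  newton s i := V.newton s i + W.newton s i

/-- The cohomology of `V`, shifted by `2 k` and twisted by `-k`, as it occurs in the cohomology of
projective bundles over `V` and of blow-ups with center `V`. -/
def Fam.twist (V : Fam A) (k : ℕ) : Fam A where
  hodge i := if 2 * k ≤ i then (V.hodge (i - 2 * k)).map (fun x => x + k) else 0
  newton s i := if 2 * k ≤ i then (V.newton s (i - 2 * k)).map (fun x => x + k) else 0

/-- The Newton polygons of the closed fibres lie on or above the Hodge polygons (Mazur, Ogus; weak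
admissibility). -/
def Fam.Above (V : Fam A) : Prop :=
  ∀ s : PrimeSpectrum A, s.asIdeal.IsMaximal → ∀ i, HO.Above (V.newton s i) (V.hodge i)

/-- The fibres of `V` over the number field points of `Spec A` are ordinary at almost all places, after
a finite extension of the number field: the places with a Frobenius element in a certain neighbourhood
of the identity of the Galois group, where `V` is not ordinary, have density zero. -/
def Fam.AlmostOrdinary (V : Fam A) : Prop :=
  ∀ (K : Type) [Field K] [NumberField K] (φ : A →+* K), ∃ U : Set (GK K), IsOpen U ∧ 1 ∈ U ∧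
    Tendsto (dens fun v : HeightOneSpectrum (𝓞 K) => (∃ σ ∈ U, IsFrob v σ) ∧
      ∃ s : PrimeSpectrum A, IsReduction φ v s.asIdeal ∧ ¬ V.Ord s) atTop (𝓝 0)

/-- The families which are built from families of hyperkähler varieties, and from the families which
are ordinary at almost all places, by products, direct sums, Tate twists and direct summands. If there
is a surjective morphism from `W` to `V` then the cohomology of `V` is a direct summand of the
cohomology of `W`; the complement `C` is also cut out by an algebraic correspondence. -/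
inductive Built (ℓ : ℕ) [Fact ℓ.Prime] : Fam A → Prop
  | hk (X : HKFamily A ℓ) : Built ℓ X.fam
  | almost (V : Fam A) : V.AlmostOrdinary → Built ℓ V
  | prod (V W : Fam A) : Built ℓ V → Built ℓ W → Built ℓ (V.prod W)
  | sum (V W : Fam A) : Built ℓ V → Built ℓ W → Built ℓ (V.sum W)
  | twist (V : Fam A) (k : ℕ) : Built ℓ V → Built ℓ (V.twist k)
  | summand (V C : Fam A) : V.Above → C.Above → Built ℓ (V.sum C) → Built ℓ V

lemma Built.exists_list {ℓ : ℕ} [Fact ℓ.Prime] {V : Fam A} (hV : Built ℓ V) :
    ∃ (n : ℕ) (X : Fin n → HKFamily A ℓ) (m : ℕ) (W : Fin m → Fam A),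
      (∀ k, (W k).AlmostOrdinary) ∧ ∀ s : PrimeSpectrum A, s.asIdeal.IsMaximal →
      (∀ j, (X j).fam.Ord s) → (∀ k, (W k).Ord s) → V.Ord s := by
  induction hV with
  | hk X => exact ⟨1, fun _ => X, 0, Fin.elim0, fun k => k.elim0, fun s _ h _ => h 0⟩
  | almost V hV => exact ⟨0, Fin.elim0, 1, fun _ => V, fun _ => hV, fun s _ _ h => h 0⟩
  | prod V W _ _ ih1 ih2 =>
    obtain ⟨n, X, m, Y, a1, h1⟩ := ih1
    obtain ⟨n', X', m', Y', a2, h2⟩ := ih2
    refine ⟨n + n', Fin.append X X', m + m', Fin.append Y Y', ?_, fun s hs h h' => fun i => ?_⟩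
    · intro k
      induction k using Fin.addCases with
      | left k => rw [Fin.append_left]; exact a1 k
      | right k => rw [Fin.append_right]; exact a2 k
    have e1 : V.newton s = V.hodge := funext (h1 s hs (fun j => by
      have := h (Fin.castAdd n' j); rwa [Fin.append_left] at this) (fun j => by
      have := h' (Fin.castAdd m' j); rwa [Fin.append_left] at this))
    have e2 : W.newton s = W.hodge := funext (h2 s hs (fun j => by
      have := h (Fin.natAdd n j); rwa [Fin.append_right] at this) (fun j => by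
      have := h' (Fin.natAdd m j); rwa [Fin.append_right] at this))
    change kun (V.newton s) (W.newton s) i = kun V.hodge W.hodge i
    rw [e1, e2]
  | sum V W _ _ ih1 ih2 =>
    obtain ⟨n, X, m, Y, a1, h1⟩ := ih1
    obtain ⟨n', X', m', Y', a2, h2⟩ := ih2
    refine ⟨n + n', Fin.append X X', m + m', Fin.append Y Y', ?_, fun s hs h h' => fun i => ?_⟩
    · intro k
      induction k using Fin.addCases with
      | left k => rw [Fin.append_left]; exact a1 k
      | right k => rw [Fin.append_right]; exact a2 k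
    have e1 := h1 s hs (fun j => by
      have := h (Fin.castAdd n' j); rwa [Fin.append_left] at this) (fun j => by
      have := h' (Fin.castAdd m' j); rwa [Fin.append_left] at this)
    have e2 := h2 s hs (fun j => by
      have := h (Fin.natAdd n j); rwa [Fin.append_right] at this) (fun j => by
      have := h' (Fin.natAdd m j); rwa [Fin.append_right] at this)
    change V.newton s i + W.newton s i = V.hodge i + W.hodge i
    rw [e1 i, e2 i]
  | twist V k _ ih =>
    obtain ⟨n, X, m, Y, a1, h1⟩ := ih
    refine ⟨n, X, m, Y, a1, fun s hs h h' => fun i => ?_⟩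
    have e1 := h1 s hs h h' (i - 2 * k)
    change (if 2 * k ≤ i then (V.newton s (i - 2 * k)).map (fun x => x + (k : ℚ)) else 0) =
      (if 2 * k ≤ i then (V.hodge (i - 2 * k)).map (fun x => x + (k : ℚ)) else 0)
    rw [e1]
  | summand V C hV hC _ ih =>
    obtain ⟨n, X, m, Y, a1, h1⟩ := ih
    refine ⟨n, X, m, Y, a1, fun s hs h h' => fun i => ?_⟩
    have e1 : V.newton s i + C.newton s i = V.hodge i + C.hodge i := h1 s hs h h' i
    have e2 := congrArg (fun m : Multiset ℚ => (m.map (fun x => x ^ 2)).sum) e1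
    simp only [Multiset.map_add, Multiset.sum_add] at e2
    have m1 := maj_multiset (hV s hs i)
    have m2 := maj_multiset (hC s hs i)
    exact m1.2 (by linarith [m2.1])

variable {ℓ : ℕ} [Fact ℓ.Prime]

lemma ord_of_fibre (X : HKFamily A ℓ) {K : Type} [Field K] [NumberField K] {φ : A →+* K}
    {v : HeightOneSpectrum (𝓞 K)} {s : PrimeSpectrum A} (hs : IsReduction φ v s.asIdeal)
    (h : ∃ hv : v ∉ (X.fibre K φ).bad, ∀ i ≤ (X.fibre K φ).d, (X.fibre K φ).OrdinaryIn v hv i) :
    X.fam.Ord s := by
  obtain ⟨hv, h1⟩ := h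
  intro i
  change (if i ≤ X.d then X.newton s i else 0) = (if i ≤ X.d then X.hodge i else 0)
  by_cases hi : i ≤ X.d
  · rw [if_pos hi, if_pos hi, ← X.fibre_newton K φ v hv s hs i hi, ← X.fibre_hodge K φ i hi]
    have h2 := h1 i (by rw [X.fibre_d]; exact hi)
    rw [Hyperkaehler.OrdinaryIn] at h2
    rw [h2]
  · rw [if_neg hi, if_neg hi]

/-- Positive density of the places with ordinary reduction, for every number field point of `Spec A`,
and existence of such places outside of a given finite set. -/
theorem point_main [Algebra.FiniteType ℤ A] {V : Fam A} (hV : Built ℓ V) {K : Type} [Field K]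
    [NumberField K] (φ : A →+* K) : ∃ δ : ℝ, 0 < δ ∧ ∀ᶠ N : ℕ in atTop, δ ≤
      dens (fun v : HeightOneSpectrum (𝓞 K) =>
        ∃ s : PrimeSpectrum A, s.asIdeal.IsMaximal ∧ IsReduction φ v s.asIdeal ∧ V.Ord s) N := by
  obtain ⟨n, X, m, W, hW, hX⟩ := hV.exists_list
  choose U hU1 hU2 hU3 using fun k => hW k K φ
  obtain ⟨δ, hδ, hev⟩ := common_dens (fun j => (X j).fibre K φ) (U := ⋂ k, U k)
    (isOpen_iInter_of_finite hU1) (Set.mem_iInter.2 hU2)
  have h3 := dens_finite (fun v : HeightOneSpectrum (𝓞 K) => ¬ ∀ a, v.valuation K (φ a) ≤ 1)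
    (finite_nonint φ)
  have h4 := dens_exists Finset.univ (fun k v => (∃ σ ∈ U k, IsFrob v σ) ∧
      ∃ s : PrimeSpectrum A, IsReduction φ v s.asIdeal ∧ ¬ (W k).Ord s) fun k _ => hU3 k
  refine ⟨δ / 3, by positivity, ?_⟩
  filter_upwards [hev, h3.eventually (gt_mem_nhds (show (0 : ℝ) < δ / 3 by positivity)),
    h4.eventually (gt_mem_nhds (show (0 : ℝ) < δ / 3 by positivity))] with N h1 h2 h2'
  have hle : dens (fun v : HeightOneSpectrum (𝓞 K) => (∃ σ ∈ ⋂ k, U k, IsFrob v σ) ∧
      ∀ j, ∃ hv : v ∉ ((X j).fibre K φ).bad,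
      ∀ i ≤ ((X j).fibre K φ).d, ((X j).fibre K φ).OrdinaryIn v hv i) N ≤
      dens (fun v : HeightOneSpectrum (𝓞 K) =>
        ∃ s : PrimeSpectrum A, s.asIdeal.IsMaximal ∧ IsReduction φ v s.asIdeal ∧ V.Ord s) N +
      (dens (fun v : HeightOneSpectrum (𝓞 K) => ¬ ∀ a, v.valuation K (φ a) ≤ 1) N +
      dens (fun v => ∃ k ∈ Finset.univ, (∃ σ ∈ U k, IsFrob v σ) ∧
        ∃ s : PrimeSpectrum A, IsReduction φ v s.asIdeal ∧ ¬ (W k).Ord s) N) := by
    refine le_trans (dens_mono (Q := fun v => _ ∨ (_ ∨ _)) ?_ N)
      (le_trans (dens_or _ _ N) (add_le_add_right (dens_or _ _ N) _))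
    rintro v ⟨⟨σ, hσ, hfr⟩, hv⟩
    by_cases hint : ∀ a, v.valuation K (φ a) ≤ 1
    · obtain ⟨s, hs1, hs2⟩ := exists_reduction φ v hint
      by_cases hk : ∀ k, (W k).Ord s
      · exact Or.inl ⟨s, hs1, hs2, hX s hs1 (fun j => ord_of_fibre (X j) hs2 (hv j)) hk⟩
      · push Not at hk
        obtain ⟨k, hk⟩ := hk
        exact Or.inr (Or.inr ⟨k, Finset.mem_univ k, ⟨σ, Set.mem_iInter.1 hσ k, hfr⟩, s, hs2, hk⟩)
    · exact Or.inr (Or.inl hint)
  linarith

theorem density_point [Algebra.FiniteType ℤ A] {V : Fam A} (hV : Built ℓ V) {K : Type} [Field K]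
    [NumberField K] (φ : A →+* K) :
    0 < lowerDensity (fun v : HeightOneSpectrum (𝓞 K) =>
      ∃ s : PrimeSpectrum A, s.asIdeal.IsMaximal ∧ IsReduction φ v s.asIdeal ∧ V.Ord s) := by
  obtain ⟨δ, hδ, hev⟩ := point_main hV φ
  exact lowerDensity_pos _ δ hδ hev

/-- The closed points with ordinary fibre are dense. -/
theorem dense_ord [IsDomain A] [CharZero A] [Algebra.FiniteType ℤ A] {V : Fam A}
    (hV : Built ℓ V) : Dense {s : PrimeSpectrum A | s.asIdeal.IsMaximal ∧ V.Ord s} := by
  rw [PrimeSpectrum.isTopologicalBasis_basic_opens.dense_iff]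
  rintro _ ⟨g, rfl⟩ ⟨x, hx⟩
  have hg : g ≠ 0 := by
    rintro rfl
    exact hx (x.asIdeal.zero_mem)
  obtain ⟨K, i1, i2, φ, hφ⟩ := exists_point hg
  obtain ⟨δ, hδ, hev⟩ := point_main hV φ
  have h3 := dens_finite (fun v : HeightOneSpectrum (𝓞 K) => v.valuation K (φ g) < 1)
    (finite_small hφ)
  obtain ⟨N, h1, h2⟩ := (hev.and (h3.eventually (gt_mem_nhds hδ))).exists
  by_contra hno
  have hle : dens (fun v : HeightOneSpectrum (𝓞 K) =>
        ∃ s : PrimeSpectrum A, s.asIdeal.IsMaximal ∧ IsReduction φ v s.asIdeal ∧ V.Ord s) N ≤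
      dens (fun v : HeightOneSpectrum (𝓞 K) => v.valuation K (φ g) < 1) N := by
    refine dens_mono ?_ N
    rintro v ⟨s, hs1, hs2, hs3⟩
    by_contra hb
    exact hno ⟨s, fun h => hb (((hs2 g).2).1 h), hs1, hs3⟩
  linarith

end

end Pool.Agent.N397.HO
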