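import Pool.Agent.N184.HK.W7

/-!
# Purity from the commutant of `so(H²)`

The last steps of the proof of the weight-monodromy conjecture for hyperkähler varieties
(`N184/HK/W6.lean`, `W7.lean`), in a form which only uses the cohomology, the operator `N` and one
Frobenius element, and properties of the action on the commutant of `so(H²)`.
-/

set_option autoImplicit false

namespace Pool.Agent.N397.HO

open Module Module.End Polynomial
open Pool.Agent.Y143 Pool.Agent.N184.HK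
open scoped Classical

section

variable {Ω : Type} [Field Ω] [CharZero Ω] [IsAlgClosed Ω] {d : ℕ} {c : ℚ} {H : Cohomology Ω d c}

/-- The eigenvalues of `F` on the commutant of `so(H²)` are roots of unity. -/
def CenRoots (F : H.Auto) : Prop :=
  ∀ i ≤ d, ∀ (a : Module.End Ω (H.H i)) (t : Ω), a ∈ cen H i → a ≠ 0 →
    a ∈ (adE (F.φ i)).maxGenEigenspace t → ∃ M : ℕ, 0 < M ∧ t ^ M = 1

/-- The determinant of `F` on the image of a central idempotent `z` of the commutant of `so(H²)`, of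
rank `n`, is up to roots of unity `μ ^ (i n / 4)`. -/
def CenDets (F : H.Auto) : Prop :=
  ∀ i ≤ d, ∀ z ∈ cen H i, z * z = z → (∀ a ∈ cen H i, Commute a z) →
    ∀ n : ℕ, LinearMap.trace Ω (H.H i) z = n → ∃ e k : ℕ, 0 < e ∧ 0 < k ∧
      LinearMap.det ((en (F.φ i)) ^ k * z + (1 - z)) ^ (4 * e) = (F.μ ^ k) ^ (i * n * e)

variable {F : H.Auto} {q : ℕ} (L : Monodromy F q) (hq1 : 1 < q) (hd : 2 ≤ d)
  (hR : CenRoots F) (hDet : CenDets F)

include hq1 hd hR in
/-- The monodromy operator comes from `so(H²)`. -/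
lemma N_eq' {i : ℕ} (hi : i ≤ d) : L.N i = H.ρ i (L.N 2) := by
  have hq : (q : Ω) ≠ 0 := by
    exact_mod_cast hq1.ne_bot
  set a := L.N i - H.ρ i (L.N 2) with ha
  have hcen : a ∈ cen H i := by
    intro A hA
    have h1 := L.compat i hi A hA
    have h2 := H.bracket i (L.N 2) A L.skew hA
    rw [h2] at h1
    change H.ρ i A * a = a * H.ρ i A
    rw [ha, mul_sub, sub_mul]
    have h3 : L.N i * H.ρ i A - H.ρ i (L.N 2) * H.ρ i A =
        H.ρ i A * L.N i - H.ρ i A * H.ρ i (L.N 2) := by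
      have := h1
      rw [sub_eq_sub_iff_add_eq_add] at this ⊢
      rw [this]
      abel
    exact h3.symm
  have had : adE (F.φ i) a = (q : Ω)⁻¹ • a := by
    rw [ha, map_sub, adE_twist _ hq (L.twist i hi), F.hc,
      adE_twist _ hq (L.twist 2 hd), map_smul, smul_sub]
  by_contra hne
  have ha0 : a ≠ 0 := fun h => hne (sub_eq_zero.1 h)
  obtain ⟨M, hM, h1⟩ := hR i hi a (q : Ω)⁻¹ hcen ha0 (by
    rw [Module.End.mem_maxGenEigenspace]
    refine ⟨1, ?_⟩
    rw [pow_one, LinearMap.sub_apply, had]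
    exact sub_self _)
  rw [inv_pow, inv_eq_one] at h1
  have h2 : q ^ M = 1 := by exact_mod_cast h1
  exact absurd h2 (Nat.one_lt_pow hM.ne' hq1).ne'

variable {W : Wt Ω} (hWU : ∀ x, W.U x ↔ ∃ w : ℤ, IsWeilNumber q w x)
  (hWw : ∀ (w : ℤ) (x : Ω), IsWeilNumber q w x → W.w x = (w : ℚ))

include L in
omit [IsAlgClosed Ω] in
lemma weights'' {i : ℕ} (hi : i ≤ d) : ∀ e ∈ (en (F.φ i)).charpoly.roots,
    ∃ w : ℤ, IsWeilNumber q w e := by
  intro e he
  refine L.weights i hi e ?_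
  rw [Polynomial.mem_roots (LinearMap.charpoly_monic _).ne_zero] at he
  exact (Module.End.hasEigenvalue_iff_isRoot_charpoly _ _).2 he

include L hWU in
omit [IsAlgClosed Ω] in
lemma U_bad' {i : ℕ} (hi : i ≤ d) : ∀ e ∈ (en (F.φ i)).charpoly.roots, W.U e :=
  fun e he => (hWU e).2 (weights'' L hi e he)

include L hd hR hWU hWw in
/-- The operator `T` commutes with the commutant of `so(H²)`. -/
lemma T_cen' {i : ℕ} (hi : i ≤ d) (κ : ℚ) {a : Module.End Ω (H.H i)}
    (ha : a ∈ cen H i) : Commute (F.T W i κ) a := by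
  have hst : ∀ x ∈ cen H i, adE (F.φ i) x ∈ cen H i := fun x hx => cen_ad _ hx
  set T := F.T W i κ with hT
  have key : (LinearMap.mulLeft Ω T - LinearMap.mulRight Ω T) ∘ₗ (cen H i).subtype = 0 := by
    refine ext_gen ((adE (F.φ i)).restrict hst) fun t x hx => ?_
    rw [LinearMap.zero_apply]
    change T * (x : Module.End Ω (H.H i)) - (x : Module.End Ω (H.H i)) * T = 0
    have hx' : (x : Module.End Ω (H.H i)) ∈ (adE (F.φ i)).maxGenEigenspace t := by
      rw [Module.End.mem_maxGenEigenspace] at hx ⊢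
      obtain ⟨k, hk⟩ := hx
      refine ⟨k, ?_⟩
      have h2 : ∀ (k : ℕ) (x : cen H i),
          (((((adE (F.φ i)).restrict hst) - t • 1) ^ k) x :
            Module.End Ω (H.H i)) =
          ((adE (F.φ i) - t • 1) ^ k) (x : Module.End Ω (H.H i)) := by
        intro k
        induction k with
        | zero => intro x; rfl
        | succ k ih =>
          intro x
          rw [_root_.pow_succ, _root_.pow_succ, Module.End.mul_apply, Module.End.mul_apply, ih]
          rfl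
      rw [← h2, hk]
      rfl
    by_cases hx0 : (x : Module.End Ω (H.H i)) = 0
    · rw [hx0, mul_zero, zero_mul, sub_zero]
    obtain ⟨M, hM, ht⟩ := hR i hi x t x.2 hx0 hx'
    have hw : W.w t = 0 := by
      have h3 : IsWeilNumber q 0 t := by
        refine IsWeilNumber.of_pow (k := M) hM ?_
        rw [ht, mul_zero]
        exact IsWeilNumber.one _
      have := hWw 0 t h3
      rw [this, Int.cast_zero]
    have h4 := T_ad (F := F) (W := W) (U_bad' L hWU hd) (U_bad' L hWU hi) κ x.2 hx'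
    rw [h4, Wt.k, hw, Rat.cast_zero, zero_smul]
  have h5 := congrArg (fun f => f ⟨a, ha⟩) key
  exact sub_eq_zero.1 h5

omit [CharZero Ω] [IsAlgClosed Ω] in
lemma idem_pow {V : Type} [AddCommGroup V] [Module Ω V] {φ z : Module.End Ω V} (h : Commute φ z)
    (hz : z * z = z) (k : ℕ) : (φ * z + (1 - z)) ^ k = φ ^ k * z + (1 - z) := by
  induction k with
  | zero => simp
  | succ k ih =>
    have h1 : z * (1 - z) = 0 := by rw [mul_sub, mul_one, hz, sub_self]
    have h2 : (1 - z) * z = 0 := by rw [sub_mul, one_mul, hz, sub_self]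
    have h3 : (1 - z) * (1 - z) = 1 - z := by rw [mul_sub, mul_one, h2, sub_zero]
    rw [_root_.pow_succ, ih, add_mul, mul_add, mul_add, h3, mul_assoc (φ ^ k) z (1 - z), h1,
      mul_zero, add_zero, h.eq, ← mul_assoc (1 - z), h2, zero_mul, zero_add, mul_assoc (φ ^ k),
      ← mul_assoc z z φ, hz, ← h.eq, ← mul_assoc, ← _root_.pow_succ]

include L hq1 hd hR hDet hWU hWw in
/-- The operator `T` is nilpotent. -/
lemma T_bad_nil' {i : ℕ} (hi : i ≤ d) : IsNilpotent (F.T W i i) := by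
  set T := F.T W i i with hT
  refine nil_of_roots fun x hx => ?_
  obtain ⟨z, n, hn, hzz, hz, htz, htTz⟩ := proj_spec hx
  have hzcen : z ∈ cen H i := fun A hA =>
    hz _ (T_comm (U_bad' L hWU hd) (U_bad' L hWU hi) i hA)
  have hzc : ∀ a ∈ cen H i, Commute a z := fun a ha =>
    hz a (T_cen' L hd hR hWU hWw hi i ha).symm
  have hzφ : Commute (en (F.φ i)) z := hz _ (T_comm_φ i _).symm
  obtain ⟨e, k, he, hk, hdet⟩ := hDet i hi z hzcen hzz hzc n htz
  obtain ⟨s, hs, hcard, hsdet, htr⟩ := t_detp Ω _ _ z hzφ hzz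
  rw [← idem_pow hzφ hzz k, map_pow, hsdet, L.mult] at hdet
  have hU1 : W.U 1 := (hWU 1).2 ⟨0, IsWeilNumber.one _⟩
  have hUs : ∀ e ∈ s, W.U e := fun e he => U_bad' L hWU hi e (hs e he)
  have h5 := W.w_prod hU1 hUs
  have h5' := W.w_pow hU1 h5.1 k
  have h6 := W.w_pow hU1 h5'.1 (4 * e)
  have hqW : IsWeilNumber q 2 (q : Ω) := by
    refine ⟨isAlgebraic_natCast q, fun y hy => ?_⟩
    have h7 : minpoly ℚ (q : Ω) = Polynomial.X - C (q : ℚ) := by
      have := minpoly.eq_X_sub_C Ω (q : ℚ)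
      rw [map_natCast] at this
      exact this
    rw [h7] at hy
    simp only [map_sub, aeval_X, aeval_C, sub_eq_zero] at hy
    rw [hy]
    simp
  have hUq : W.U (q : Ω) := (hWU _).2 ⟨2, hqW⟩
  have hwq : W.w (q : Ω) = 2 := by
    have := hWw 2 _ hqW
    rw [this]; norm_num
  have h8 := W.w_pow hU1 hUq 2
  have h8' := W.w_pow hU1 h8.1 k
  have h9 := W.w_pow hU1 h8'.1 (i * n * e)
  have h10 : (4 * e : ℚ) * (k * (s.map W.w).sum) = (i * n * e) * (k * (2 * 2)) := by
    have := congrArg W.w hdet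
    rw [h6.2, h9.2, h8'.2, h8.2, h5'.2, h5.2, hwq] at this
    push_cast at this
    exact this
  have hpos : (0 : ℚ) < e := by exact_mod_cast he
  have hposk : (0 : ℚ) < k := by exact_mod_cast hk
  have h11 : (s.map W.w).sum = i * n := by
    have h12 : (4 * e * k : ℚ) * ((s.map W.w).sum - i * n) = 0 := by
      rw [mul_sub]
      linear_combination h10
    rcases mul_eq_zero.1 h12 with h | h
    · exfalso
      have : (0 : ℚ) < 4 * e * k := by positivity
      linarith
    · linarith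
  have h12 := htr W.k
  have h13 : (s.map W.k).sum = (((s.map W.w).sum : ℚ) : Ω) := cast_sum_map _ _
  rw [h13, h11, fop_split F W i (i : ℚ), add_mul, add_mul, map_add, map_add,
    tr_rho_mul (skew_S2 (U_bad' L hWU hd)) (fun B hB => hzcen B hB), smul_mul_assoc,
    one_mul, map_smul, htz, smul_eq_mul, add_zero, ← hT, htTz] at h12
  have h14 : x * n = 0 := by
    have h15 : (((i : ℚ) * n : ℚ) : Ω) = ((i : ℚ) : Ω) * n := by
      rw [Rat.cast_mul, Rat.cast_natCast, Rat.cast_natCast]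
    rw [h15] at h12
    exact add_eq_left.1 h12
  rcases mul_eq_zero.1 h14 with h | h
  · exact h
  · exfalso
    have : n = 0 := by exact_mod_cast h
    omega

omit hWU hWw in
include hq1 hd hR hDet in
/-- **Purity in all degrees.** -/
theorem pure_all' {i : ℕ} (hi : i ≤ d) : IsMWPure q i (en (F.φ i)) (L.N i) := by
  have hq := hq1
  obtain ⟨W, hWU, hWw⟩ := t_wtb Ω q hq
  have hq0 : (q : Ω) ≠ 0 := by exact_mod_cast hq.ne_bot
  have hqW : IsWeilNumber q 2 (q : Ω) := by
    refine ⟨isAlgebraic_natCast _, fun y hy => ?_⟩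
    have h7 : minpoly ℚ (q : Ω) =
        Polynomial.X - C (q : ℚ) := by
      have := minpoly.eq_X_sub_C Ω (q : ℚ)
      rw [map_natCast] at this
      exact this
    rw [h7] at hy
    simp only [map_sub, aeval_X, aeval_C, sub_eq_zero] at hy
    rw [hy]
    simp
  have hU1 : W.U 1 := (hWU 1).2 ⟨0, IsWeilNumber.one _⟩
  have hUq : W.U (q : Ω) := (hWU _).2 ⟨2, hqW⟩
  have hwq : W.w (q : Ω) = 2 := by
    have := hWw 2 _ hqW
    rw [this]; norm_num
  have hwμ : W.w F.μ / 2 = 2 := by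
    rw [L.mult, (W.w_pow hU1 hUq 2).2, hwq]; norm_num
  have hwinv : W.k (q : Ω)⁻¹ = -2 := by
    have h1 := W.w_mul _ _ hUq (W.inv _ hUq)
    rw [mul_inv_cancel₀ hq0, W.w_one hU1, hwq] at h1
    have h2 : W.w (q : Ω)⁻¹ = -2 := by linarith
    rw [Wt.k, h2]; norm_num
  -- the grading of `H²`
  set D := F.S2 W with hD
  have hDskew : Skew H.q D := skew_S2 (U_bad' L hWU hd)
  have hDfop : D = fop (en (F.φ 2)) (fun e => ((W.w e - (2 : ℤ) : ℚ) : Ω)) := by
    have : (fun e => ((W.w e - (2 : ℤ) : ℚ) : Ω)) = fun e => W.k e - ((2 : ℚ) : Ω) := by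
      ext e; rw [Rat.cast_sub]; rfl
    rw [this, fop_sub, fop_const, hD, Cohomology.Auto.S2, hwμ]
  have hN2 : L.N 2 ∈ (adE (F.φ 2)).maxGenEigenspace (q : Ω)⁻¹ := by
    rw [Module.End.mem_maxGenEigenspace]
    refine ⟨1, ?_⟩
    rw [pow_one, LinearMap.sub_apply, adE_twist _ hq0 (L.twist 2 hd)]
    exact sub_self _
  have hDN : D * L.N 2 - L.N 2 * D = -(2 : Ω) • L.N 2 := by
    have h1 := comm_fop W (U_bad' L hWU hd) hN2
    rw [hwinv] at h1
    rw [← h1, hD, Cohomology.Auto.S2, sub_mul, mul_sub, smul_mul_assoc, mul_smul_comm, one_mul,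
      mul_one]
    abel
  have hDtop : (⨆ j : ℤ, D.eigenspace (j : Ω)) = ⊤ := by
    rw [hDfop]
    refine (t_fope Ω (H.H 2) _ _).2.2 fun e he => ?_
    obtain ⟨w, hw⟩ := weights'' L hd e he
    refine ⟨w - 2, ?_⟩
    rw [hWw w e hw]
    push_cast
    ring
  have hW2 : ∀ j : ℤ, D.eigenspace (j : Ω) =
      WS q (en (F.φ 2)) (2 + j) := fun j => by
    rw [hDfop]
    exact WS_eq hq (weights'' L hd) hWw 2 j
  have hfrm := t_frm Ω (H.H 2) _ hq 2 _ (L.N 2) (weights'' L hd)
    (L.twist 2 hd) L.mw_two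
  have hbij : ∀ j : ℕ, Set.BijOn (⇑(L.N 2 ^ j)) (D.eigenspace (j : Ω) : Set (H.H 2))
      (D.eigenspace (-(j : Ω)) : Set (H.H 2)) := by
    intro j
    have h1 := hW2 (j : ℤ)
    have h2 := hW2 (-(j : ℤ))
    rw [Int.cast_natCast] at h1
    rw [Int.cast_neg, Int.cast_natCast, ← sub_eq_add_neg] at h2
    rw [h1, h2]
    exact hfrm j
  obtain ⟨Y, hY, hDY, hYN⟩ := t_sl2a Ω (H.H 2) H.q H.symm H.nondeg D (L.N 2)
    hDskew L.skew hDN hDtop hbij
  -- the representation on `H^i`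
  have b1 : H.ρ i D * H.ρ i Y - H.ρ i Y * H.ρ i D = (2 : Ω) • H.ρ i Y := by
    rw [← H.bracket i D Y hDskew hY, hDY, map_smul]
  have b2 : H.ρ i D * L.N i - L.N i * H.ρ i D = -(2 : Ω) • L.N i := by
    rw [N_eq' L hq1 hd hR hi, ← H.bracket i D _ hDskew L.skew, hDN, map_smul]
  have b3 : H.ρ i Y * L.N i - L.N i * H.ρ i Y = H.ρ i D := by
    rw [N_eq' L hq1 hd hR hi, ← H.bracket i Y _ hY L.skew, hYN]
  obtain ⟨-, hB⟩ := t_sl2b Ω (H.H i) _ _ _ b1 b2 b3
  have hT := T_bad_nil' L hq1 hd hR hDet hWU hWw hi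
  have hTc : Commute (H.ρ i D) (F.T W i i) :=
    T_comm (U_bad' L hWU hd) (U_bad' L hWU hi) _ hDskew
  have hsum : H.ρ i D + F.T W i i =
      fop (en (F.φ i)) (fun e => ((W.w e - ((i : ℤ) : ℚ) : ℚ) : Ω)) := by
    rw [Cohomology.Auto.T, hD]
    simp only [Int.cast_natCast]
    abel
  have hWi : ∀ j : ℤ, (H.ρ i D).maxGenEigenspace (j : Ω) =
      WS q (en (F.φ i)) ((i : ℤ) + j) := fun j => by
    rw [← t_wsp Ω (H.H i) _ _ hTc hT, hsum, (t_fope Ω (H.H i) _ _).2.1]
    exact WS_eq hq (weights'' L hi) hWw (i : ℤ) j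
  refine t_tom Ω (H.H i) _ hq i _ (L.N i) (weights'' L hi) (L.twist i hi) fun j => ?_
  have h1 := hWi (j : ℤ)
  have h2 := hWi (-(j : ℤ))
  rw [Int.cast_natCast] at h1
  rw [Int.cast_neg, Int.cast_natCast, ← sub_eq_add_neg] at h2
  rw [← h1, ← h2]
  exact hB j

end

end Pool.Agent.N397.HO
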