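import Pool.Agent.N397.HO.PW
import Pool.Agent.N184.WM.Descent

/-!
# The `p`-adic weight-monodromy conjecture for hyperkähler varieties over number fields
-/

set_option autoImplicit false

namespace Pool.Agent.N397.HO

open Module Module.End Polynomial NumberField IsDedekindDomain
open Pool.Agent.W401.Cheb Pool.Agent.Y143 Pool.Agent.N184.HK Pool.Agent.N184.WM

/-- The linear action of the Weil group `G` of the local field `K_u` on the potentially semistable
cohomology `H i = H^i_pst(X)` of a hyperkähler variety; `val g = h n` if `g` acts on the algebraic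
closure of the residue field, of `p ^ h` elements, as the `n`-th power of the geometric Frobenius. The
form `q` of Beauville, Bogomolov and Fujiki has values in the Tate twist `C(-2)`. -/
structure WeilAction {C : Type} [Field C] {d : ℕ} {c : ℚ} (H : Cohomology C d c) (p : ℕ) where
  G : Type
  [group : Group G]
  val : G → ℤ
  val_inv : ∀ g, val g⁻¹ = - val g
  F : G → H.Auto
  mul : ∀ g h i, (F (g * h)).φ i = ((F h).φ i).trans ((F g).φ i)
  mult : ∀ g, (F g).μ = (p : C) ^ (2 * val g)

attribute [instance] WeilAction.group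

/-- The monodromy operators `N i` of `H^i_pst(X)`: `N` is a derivation of the cohomology ring, so it is
skew on `H²` and compatible with the action of `so(H²)`, and `N g = p ^ val(g) g N`. The inertia group
acts through a finite quotient; the eigenvalues of the elements of positive valuation are Weil
numbers (de Jong, Katz-Messing, Mokrane); the conjecture is known for `H²`. -/
structure PstMonodromy {C : Type} [Field C] [CharZero C] {d : ℕ} {c : ℚ} {H : Cohomology C d c}
    {p : ℕ} (W : WeilAction H p) where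
  N : ∀ i, Module.End C (H.H i)
  skew : Skew H.q (N 2)
  compat : ∀ i ≤ d, (H.ρ i).Compat H.q (N 2) (N i)
  twist : ∀ g, ∀ i ≤ d, CommutesUpTo ((p : C) ^ W.val g) (en ((W.F g).φ i)) (N i)
  inertia : ∀ g, W.val g = 0 → ∃ k : ℕ, 0 < k ∧ ∀ i ≤ d, en ((W.F (g ^ k)).φ i) = 1
  weights : ∀ g (n : ℕ), 0 < n → W.val g = n → ∀ i ≤ d, Weighted (p ^ n) (en ((W.F g).φ i))
  mw_two : ∀ g (n : ℕ), 0 < n → W.val g = n → IsMWPure (p ^ n) 2 (en ((W.F g).φ 2)) (N 2)

/-- The operator `f` is quasi-unipotent on the subspace `S`: `(f ^ M - 1) ^ m` is zero on `S`. -/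
def QuasiUnip {K V : Type} [Field K] [AddCommGroup V] [Module K V] (S : Submodule K V)
    (f : Module.End K V) (M m : ℕ) : Prop :=
  0 < M ∧ ∀ a ∈ S, ((f ^ M - 1) ^ m) a = 0

/-- The Galois group acts quasi-unipotently on the commutant of `so(H²)` in `End H^i`. -/
def GalQuasi {K : Type} [Field K] [NumberField K] {Ω : Type} [Field Ω] [TopologicalSpace Ω]
    (X : HKVariety K Ω) (i : ℕ) : Prop :=
  ∃ M m : ℕ, ∀ σ : GK K, QuasiUnip (cen X.E.X i) (adE ((X.E.F σ).φ i)) M m

/-- `F` acts quasi-unipotently on the commutant of `so(H²)` in `End H^i`. -/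
def CenQuasi {C : Type} [Field C] {d : ℕ} {c : ℚ} {H : Cohomology C d c} (F : H.Auto) (i : ℕ) :
    Prop :=
  ∃ M m : ℕ, QuasiUnip (cen H i) (adE (F.φ i)) M m

/-- `z` is an idempotent of rank `n` in the algebra `S` of operators, and it is central in `S`. -/
structure CenIdem {C V : Type} [Field C] [AddCommGroup V] [Module C V]
    (S : Submodule C (Module.End C V)) (z : Module.End C V) (n : ℕ) : Prop where
  mem : z ∈ S
  idem : z * z = z
  central : ∀ a ∈ S, a * z = z * a
  rank : LinearMap.trace C V z = n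

/-- `z` is a central idempotent, of rank `n`, of the commutant of `so(H²)` in `End H^i`. -/
def IsCentralIdem {C : Type} [Field C] {d : ℕ} {c : ℚ} (H : Cohomology C d c) (i : ℕ)
    (z : Module.End C (H.H i)) (n : ℕ) : Prop :=
  CenIdem (cen H i) z n

/-- The determinant of `φ` on the image of the idempotent `z` which commutes with `φ`. -/
noncomputable def detOn {C V : Type} [Field C] [AddCommGroup V] [Module C V]
    (φ z : Module.End C V) : C :=
  LinearMap.det (φ * z + (1 - z))

/-- The operator `φ` commutes with the idempotent `z`, and `det ^ e₁ = μ ^ e₂` where `det` is the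
determinant of `φ` on the image of `z`. -/
def DetRel {C V : Type} [Field C] [AddCommGroup V] [Module C V] (φ z : Module.End C V) (μ : C)
    (e₁ e₂ : ℕ) : Prop :=
  φ * z = z * φ ∧ detOn φ z ^ e₁ = μ ^ e₂

/-- On an open subgroup `det ^ e₁ = μ ^ e₂`, where `det` is the determinant of the image of `z` and `μ`
is the multiplier of the form `q` (a power of the cyclotomic character). -/
def GalDet {K : Type} [Field K] [NumberField K] {Ω : Type} [Field Ω] [TopologicalSpace Ω]
    (X : HKVariety K Ω) (i : ℕ) (z : Module.End Ω (X.E.X.H i)) (e₁ e₂ : ℕ) : Prop :=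
  ∃ O : Set (GK K), IsOpen O ∧ 1 ∈ O ∧ ∀ σ ∈ O, DetRel (X.E.Φ σ i) z (X.E.mu σ) e₁ e₂

/-- `det ^ e₁ = μ ^ e₂` for a power of `φ`. -/
def PowRel {C V : Type} [Field C] [AddCommGroup V] [Module C V] (φ z : Module.End C V) (μ : C)
    (e₁ e₂ : ℕ) : Prop :=
  ∃ k : ℕ, 0 < k ∧ detOn (φ ^ k) z ^ e₁ = (μ ^ k) ^ e₂

/-- Properties of Fontaine's functor `D_pst`, which is exact and compatible with tensor products, and
`D_pst` of a representation with finite image is this representation itself. `quasi`: if the Galois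
group acts quasi-unipotently on the commutant of `so(H²)` in the endomorphisms of the étale
cohomology then the Weil group acts quasi-unipotently on the commutant of `so(H²)` in the
endomorphisms of `H^i_pst(X)`. `idem`: a central idempotent `z` of this commutant corresponds to a
central idempotent `z'` of the commutant in the étale cohomology, of the same rank (comparison
isomorphism); if on an open subgroup the determinant of the image of `z'` and `μ` satisfy
`det ^ e₁ = μ ^ e₂`, then the same is true on the other side, for a power of each element `g`. -/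
structure Fontaine {K : Type} [Field K] [NumberField K] {Ω : Type} [Field Ω] [TopologicalSpace Ω]
    (X : HKVariety K Ω) {C : Type} [Field C] {H : Cohomology C X.d X.c} {p : ℕ}
    (W : WeilAction H p) : Prop where
  quasi : ∀ i ≤ X.d, GalQuasi X i → ∀ g, CenQuasi (W.F g) i
  idem : ∀ i ≤ X.d, ∀ z n, IsCentralIdem H i z n → ∃ z', IsCentralIdem X.E.X i z' n ∧
    ∀ e₁ e₂, GalDet X i z' e₁ e₂ → ∀ g, PowRel (en ((W.F g).φ i)) z (W.F g).μ e₁ e₂

/-- The potentially semistable cohomology `H^i_pst(X)` of a projective hyperkähler variety `X` over a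
number field `K` at a place above `p`, with coefficients in an algebraically closed field `C` which
contains `P_0`, with the actions of the Weil group and of the monodromy. The `p`-adic étale cohomology
of `X`, with the action of the Galois group of `K`, is `X.E`. -/
structure PstPlace {K : Type} [Field K] [NumberField K] {Ω : Type} [Field Ω] [TopologicalSpace Ω]
    (X : HKVariety K Ω) (p : ℕ) where
  C : Type
  [field : Field C]
  [closed : IsAlgClosed C]
  [char : CharZero C]
  H : Cohomology C X.d X.c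
  W : WeilAction H p
  M : PstMonodromy W
  fontaine : Fontaine X W

attribute [instance] PstPlace.field PstPlace.closed PstPlace.char

section

variable {K : Type} [Field K] [NumberField K] {Ω : Type} [Field Ω] [CharZero Ω] [IsAlgClosed Ω]
  [TopologicalSpace Ω] [IsTopologicalRing Ω] [T2Space Ω] {X : HKVariety K Ω} {p : ℕ}
  (P : PstPlace X p)

lemma cenRoots (g : P.W.G) : CenRoots (P.W.F g) := by
  intro i hi a t ha ha0 hat
  obtain ⟨M, m, hM, h⟩ := P.fontaine.quasi i hi ⟨expo X i, finrank Ω (cen X.E.X i), fun σ =>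
    ⟨Nat.factorial_pos _, fun a ha => all_quasi X hi ha σ⟩⟩ g
  refine ⟨M, hM, root_of_quasi (m := m) ha0 hat ?_⟩
  rintro b ⟨k, rfl⟩
  refine h _ ?_
  induction k with
  | zero => exact ha
  | succ k ih =>
    rw [_root_.pow_succ', Module.End.mul_apply, LinearMap.sub_apply]
    exact Submodule.sub_mem _ (cen_ad _ ih) (Submodule.smul_mem _ _ ih)

lemma cenDets (g : P.W.G) : CenDets (P.W.F g) := by
  intro i hi z hz hzz hzc n hn
  obtain ⟨z', ⟨hz', hzz', hzc', htz⟩, hdet⟩ :=
    P.fontaine.idem i hi z n ⟨hz, hzz, fun a ha => (hzc a ha).eq, hn⟩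
  obtain ⟨O, hO, hO1, hOz⟩ := t_open Ω (X.E.X.H i) (GK K) (fun σ => (X.E.F σ).φ i)
    (fun σ τ => X.E.mul σ τ i) (X.E.cont i) z' hzz' fun σ => (hzc' _ (cen_ad _ hz')).symm
  have hcomm : ∀ σ ∈ O, Commute (en ((X.E.F σ).φ i)) z' := by
    intro σ hσ
    have h := hOz σ hσ
    change en ((X.E.F σ).φ i) * z' = z' * en ((X.E.F σ).φ i)
    ext y
    have := congrArg (fun f : Module.End Ω (X.E.X.H i) => f ((X.E.F σ).φ i y)) h
    simp only [adE_apply] at this
    exact this
  have hcts : Cts fun σ => en ((X.E.F σ).φ i) * z' + (1 - z') := by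
    intro M
    have h1 := (t_cts Ω (X.E.X.H i) (GK K) _ (fun _ => z') (X.E.cont i)
      (fun M => continuous_const)).1 M
    simp only [map_add]
    exact h1.add continuous_const
  have hg : Continuous fun σ => LinearMap.det (en ((X.E.F σ).φ i) * z' + (1 - z')) ^
      (4 * expo2 X i n) - (X.E.F σ).μ ^ (i * n * expo2 X i n) :=
    ((t_cts Ω (X.E.X.H i) (GK K) _ _ hcts hcts).2.pow _).sub (X.E.cont_μ.pow _)
  have h0 := dense_zero X hO hg (fun v hv hp σ hσ hfr =>
    sub_eq_zero.2 (good_det X hv hp hfr hi hz' hzz' (hcomm σ hσ) htz))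
  obtain ⟨k, hk, h⟩ := hdet (4 * expo2 X i n) (i * n * expo2 X i n) ⟨O, hO, hO1,
    fun σ hσ => ⟨hcomm σ hσ, sub_eq_zero.1 (h0 σ hσ)⟩⟩ g
  exact ⟨expo2 X i n, k, expo2_pos X i n, hk, h⟩

/-- The data at an element of positive valuation. -/
noncomputable def PstPlace.data (g : P.W.G) (n : ℕ) (hn : 0 < n) (hg : P.W.val g = n) :
    Monodromy (P.W.F g) (p ^ n) where
  mult := by
    rw [P.W.mult, hg]
    push_cast
    rw [← pow_mul, mul_comm n 2]
    norm_cast
  N := P.M.N
  skew := P.M.skew
  compat := P.M.compat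
  twist i hi x := by
    have h := P.M.twist g i hi x
    rw [hg, zpow_natCast] at h
    push_cast
    exact h
  weights := P.M.weights g n hn hg
  mw_two := P.M.mw_two g n hn hg

lemma pure_pos (hp : 1 < p) (g : P.W.G) (n : ℕ) (hn : 0 < n) (hg : P.W.val g = n) {i : ℕ}
    (hi : i ≤ X.d) : IsMWPure (p ^ n) i (en ((P.W.F g).φ i)) (P.M.N i) :=
  pure_all' (P.data g n hn hg) (Nat.one_lt_pow hn.ne' hp) X.two_le (cenRoots P g) (cenDets P g) hi

end

section weil

variable {Ω : Type} [Field Ω] [CharZero Ω]

/-- From mw purity for the elements of positive valuation to the assertion for all elements of the Weil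
group. -/
theorem weil_all (D : WeilModule.{0, 0} Ω) {p m : ℕ} (hp : 1 < p) (hD : D.IsTwistedBy p)
    (hpos : ∀ g (n : ℕ), 0 < n → D.val g = n → IsMWPure (p ^ n) m (D.op g) D.N)
    (h0 : ∀ g, D.val g = 0 → ∃ k : ℕ, 0 < k ∧ D.op (g ^ k) = 1) (s : ℤ) (g : D.G) :
    D.WeightMonodromyAt m p s g := by
  intro M' hM'
  have hpΩ : (p : Ω) ≠ 0 := Nat.cast_ne_zero.2 (by omega)
  have hpR : (0 : ℝ) < p := Nat.cast_pos.2 (by omega)
  have hstab : ∀ (g : D.G) (s : ℤ) x, x ∈ M' s → D.op g x ∈ M' s := by
    intro g s x hx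
    exact IsMonodromyFiltrationOn.functorial hM'.on hM'.on (D.op g) (fun _ _ => trivial)
      (c := (p : Ω) ^ D.val g) (zpow_ne_zero _ hpΩ) (fun x _ => hD.twist g x) s hx
  have hpow : ∀ (g : D.G) (α : Ω) (x : D.V), x ∈ M' s → D.op g x - α • x ∈ M' (s - 1) → ∀ a : ℕ,
      D.op (g ^ a) x - α ^ a • x ∈ M' (s - 1) := by
    intro g α x hx h a
    induction a with
    | zero => simp [op_one]
    | succ a ih =>
      have e : D.op (g ^ (a + 1)) x - α ^ (a + 1) • x =
          D.op g (D.op (g ^ a) x - α ^ a • x) + α ^ a • (D.op g x - α • x) := by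
        rw [map_sub, map_smul, pow_succ' g, op_mul, Module.End.mul_apply, smul_sub, smul_smul,
          ← _root_.pow_succ]
        abel
      rw [e]
      exact Submodule.add_mem _ (hstab g _ _ ih) (Submodule.smul_mem _ _ h)
  -- the case of nonnegative valuation
  have pos : ∀ (g : D.G), 0 ≤ D.val g → ∀ (α : Ω) (x : D.V), x ∈ M' s → x ∉ M' (s - 1) →
      D.op g x - α • x ∈ M' (s - 1) → IsAlgebraic ℚ α ∧ ∀ z : ℂ, aeval z (minpoly ℚ α) = 0 →
        ‖z‖ = (p : ℝ) ^ (((m : ℝ) + s) * D.val g / 2) := by
    intro g hg α x hx hx' hα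
    obtain ⟨n, hn⟩ := Int.eq_ofNat_of_zero_le hg
    rcases Nat.eq_zero_or_pos n with h | hn0
    · subst h
      have hval : D.val g = 0 := by rw [hn]; rfl
      obtain ⟨k, hk, hgk⟩ := h0 g hval
      have h1 := hpow g α x hx hα k
      rw [hgk, Module.End.one_apply] at h1
      have h2 : (1 - α ^ k) • x ∈ M' (s - 1) := by
        rw [sub_smul, one_smul]
        exact h1
      have h3 : α ^ k = 1 := by
        by_contra hne
        exact hx' ((Submodule.smul_mem_iff _ (sub_ne_zero.2 (Ne.symm hne))).1 h2)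
      have halg : IsAlgebraic ℚ α := IsAlgebraic.of_pow hk (by rw [h3]; exact isAlgebraic_one)
      refine ⟨halg, fun z hz => ?_⟩
      have h4 := aeval_minpoly_pow hz k
      rw [h3, minpoly.one] at h4
      simp only [map_sub, aeval_X, map_one, sub_eq_zero] at h4
      have h5 : ‖z‖ ^ k = 1 := by rw [← norm_pow, h4, norm_one]
      have h6 : ‖z‖ = 1 := by
        rwa [pow_eq_one_iff_of_nonneg (norm_nonneg z) hk.ne'] at h5
      rw [h6, hval]
      simp
    · obtain ⟨M, hM, -, hM2⟩ := hpos g n hn0 hn
      have e1 : ∀ (t : ℤ) (y : D.V), y ∈ M' t → y ∈ M t := fun t y hy =>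
        IsMonodromyFiltrationOn.functorial hM'.on hM.on (LinearMap.id) (fun _ _ => trivial)
          (c := 1) one_ne_zero (fun x _ => by simp) t hy
      have e2 : ∀ (t : ℤ) (y : D.V), y ∈ M t → y ∈ M' t := fun t y hy =>
        IsMonodromyFiltrationOn.functorial hM.on hM'.on (LinearMap.id) (fun _ _ => trivial)
          (c := 1) one_ne_zero (fun x _ => by simp) t hy
      have h1 := hM2 s α x (e1 _ _ hx) (fun h => hx' (e2 _ _ h)) (e1 _ _ hα)
      refine ⟨h1.1, fun z hz => ?_⟩
      rw [h1.2 z hz, hn]
      push_cast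
      rw [← Real.rpow_natCast, ← Real.rpow_mul hpR.le]
      congr 1
      ring
  refine ⟨fun x hx => hstab g s x hx, fun α x hx hx' hα => ?_⟩
  rcases le_total 0 (D.val g) with hg | hg
  · exact pos g hg α x hx hx' hα
  · have hginv : ∀ y, D.op g⁻¹ (D.op g y) = y := by
      intro y
      rw [← Module.End.mul_apply, ← op_mul, inv_mul_cancel, op_one, Module.End.one_apply]
    have hα0 : α ≠ 0 := by
      rintro rfl
      rw [zero_smul, sub_zero] at hα
      apply hx'
      rw [← hginv x]
      exact hstab _ _ _ hα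
    have h1 : D.op g⁻¹ x - α⁻¹ • x ∈ M' (s - 1) := by
      have e : D.op g⁻¹ x - α⁻¹ • x = -(α⁻¹ • D.op g⁻¹ (D.op g x - α • x)) := by
        rw [map_sub, hginv, map_smul, smul_sub, smul_smul, inv_mul_cancel₀ hα0, one_smul]
        abel
      rw [e]
      exact Submodule.neg_mem _ (Submodule.smul_mem _ _ (hstab _ _ _ hα))
    obtain ⟨h2, h3⟩ := pos g⁻¹ (by rw [hD.val_inv]; omega) α⁻¹ x hx hx' h1
    refine ⟨by simpa using h2.inv, fun z hz => ?_⟩
    have h4 : aeval z⁻¹ (minpoly ℚ α⁻¹) = 0 := by
      apply aeval_minpoly_inv h2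
      rwa [inv_inv]
    have h5 := h3 _ h4
    rw [norm_inv, hD.val_inv] at h5
    rw [← inv_inv ‖z‖, h5, ← Real.rpow_neg hpR.le]
    congr 1
    push_cast
    ring

end weil

section main

variable {K : Type} [Field K] [NumberField K] {Ω : Type} [Field Ω] [TopologicalSpace Ω]
  {X : HKVariety K Ω} {p : ℕ} (P : PstPlace X p)

/-- The action of a group given by automorphisms. -/
def mkAct {G C V : Type} [Group G] [Field C] [AddCommGroup V] [Module C V]
    (φ : G → (V ≃ₗ[C] V)) (h : ∀ g g', φ (g * g') = (φ g').trans (φ g)) :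
    G →* Module.End C V where
  toFun g := (φ g).toLinearMap
  map_one' := by
    have h2 : ∀ x, φ 1 x = x := by
      intro x
      have h3 := congrArg (fun f => f x) (h 1 1)
      simp only [mul_one] at h3
      exact (φ 1).injective h3.symm
    ext x
    exact h2 x
  map_mul' g g' := by
    ext x
    exact congrArg (fun f => f x) (h g g')

/-- `H^i_pst(X)` with the actions of the Weil group and of the monodromy. -/
def PstPlace.weil (i : ℕ) : WeilModule.{0, 0} P.C where
  V := P.H.H i
  G := P.W.G
  val := P.W.val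
  act := mkAct (fun g => (P.W.F g).φ i) (fun g h => P.W.mul g h i)
  N := P.M.N i

/-- The monodromy-weight conjecture for `H^i_pst(X)`: for all `g` in the Weil group and all `s` the
eigenvalues of `g` on `gr_s` are algebraic numbers all of whose complex conjugates have absolute value
`p ^ ((i + s) val(g) / 2)`. -/
def PstPlace.MonodromyWeight (i : ℕ) : Prop :=
  ∀ (s : ℤ) (g : P.W.G), (P.weil i).WeightMonodromyAt i p s g

/-- The operator `M` is given by the operator `N` and the action `ρ`. -/
def IsImage {K V W : Type} [Field K] [AddCommGroup V] [Module K V] [AddCommGroup W] [Module K W]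
    (ρ : Act K V W) (N : Module.End K V) (M : Module.End K W) : Prop :=
  M = ρ N

/-- **The `p`-adic weight-monodromy conjecture for hyperkähler varieties over number fields.** -/
theorem pst_main [CharZero Ω] [IsAlgClosed Ω] [IsTopologicalRing Ω] [T2Space Ω] (hp : 1 < p)
    {i : ℕ} (hi : i ≤ X.d) : P.MonodromyWeight i := by
  intro s g
  refine weil_all (P.weil i) hp ⟨P.W.val_inv, fun g x => P.M.twist g i hi x⟩ ?_ ?_ s g
  · intro g n hn hg
    exact pure_pos P hp g n hn hg hi
  · intro g hg
    obtain ⟨k, hk, h⟩ := P.M.inertia g hg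
    exact ⟨k, hk, h i hi⟩

/-- The monodromy operator in all degrees comes from the one on `H²`. -/
theorem pst_N [CharZero Ω] [IsAlgClosed Ω] [IsTopologicalRing Ω] [T2Space Ω] (hp : 1 < p)
    {i : ℕ} (hi : i ≤ X.d) (h : ∃ g, 0 < P.W.val g) :
    IsImage (P.H.ρ i) (P.M.N 2) (P.M.N i) := by
  obtain ⟨g, hg⟩ := h
  obtain ⟨n, hn⟩ := Int.eq_ofNat_of_zero_le hg.le
  have hn0 : 0 < n := by
    rw [hn] at hg
    exact_mod_cast hg
  exact N_eq' (P.data g n hn0 hn) (Nat.one_lt_pow hn0.ne' hp) X.two_le (cenRoots P g) hi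

end main

end Pool.Agent.N397.HO
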