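import Pool.Agent.N397.HO.Fam

/-!
# Ordinary primes for summands over number fields
-/

set_option autoImplicit false

namespace Pool.Agent.N397.HO

open Module NumberField IsDedekindDomain Filter Topology
open Pool.Agent.W401.Cheb Pool.Agent.W528.Ord Pool.Agent.N184.HK

/-- The closed point of `Spec 𝓞 F` given by the place `v`. -/
def pt {F : Type} [Field F] [NumberField F] (v : HeightOneSpectrum (𝓞 F)) :
    PrimeSpectrum (𝓞 F) :=
  ⟨v.asIdeal, v.isPrime⟩

/-- A direct summand `R` of the cohomology `H^n(V)` of the variety `V` over the number field `F`, with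
complement `R'`. The set `I` is the set of the pairs `(ℓ, τ)` of a prime number `ℓ` and an embedding `τ`
of the field of algebraic numbers into the closure of `ℚ_p`, `p` any prime number, and `ok v (ℓ, τ)` says that `v` divides `p` and
not `ℓ`. `newton v (ℓ, τ)` are the slopes `v (τ α)`, `α` the eigenvalues of the Frobenius of `v` on the
`ℓ`-adic realisation `R_ℓ`, and `hodge` are the Hodge-Tate weights. Outside of a finite set of places
the Newton polygon lies on or above the Hodge polygon (Katz-Messing, Mazur; known if the projectors are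
algebraic cycles). -/
structure Summand {F : Type} [Field F] [NumberField F] (V : Fam (𝓞 F)) (n : ℕ) where
  I : Type
  ok : HeightOneSpectrum (𝓞 F) → I → Prop
  bad : Set (HeightOneSpectrum (𝓞 F))
  finite : bad.Finite
  hodge : Multiset ℚ
  hodge' : Multiset ℚ
  newton : HeightOneSpectrum (𝓞 F) → I → Multiset ℚ
  newton' : HeightOneSpectrum (𝓞 F) → I → Multiset ℚ
  hodge_add : hodge + hodge' = V.hodge n
  newton_add : ∀ v, v ∉ bad → ∀ t, ok v t → newton v t + newton' v t = V.newton (pt v) n
  above : ∀ v, v ∉ bad → ∀ t, ok v t → Above (newton v t) hodge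
  above' : ∀ v, v ∉ bad → ∀ t, ok v t → Above (newton' v t) hodge'

section

variable {F : Type} [Field F] [NumberField F] {V : Fam (𝓞 F)} {n : ℕ} {ℓ : ℕ} [Fact ℓ.Prime]

lemma eq_pt {v : HeightOneSpectrum (𝓞 F)} {s : PrimeSpectrum (𝓞 F)}
    (h : IsReduction (algebraMap (𝓞 F) F) v s.asIdeal) : s = pt v := by
  apply PrimeSpectrum.ext
  ext a
  rw [(h a).2, HeightOneSpectrum.valuation_lt_one_iff_mem]
  rfl

lemma Summand.ord (R : Summand V n) {v : HeightOneSpectrum (𝓞 F)} (hv : v ∉ R.bad)
    (h : V.newton (pt v) n = V.hodge n) : ∀ t, R.ok v t → R.newton v t = R.hodge := by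
  intro t ht
  have e1 := R.newton_add v hv t ht
  rw [h, ← R.hodge_add] at e1
  have e2 := congrArg (fun m : Multiset ℚ => (m.map (fun x => x ^ 2)).sum) e1
  simp only [Multiset.map_add, Multiset.sum_add] at e2
  have m1 := maj_multiset (R.above v hv t ht)
  have m2 := maj_multiset (R.above' v hv t ht)
  exact m1.2 (by linarith [m2.1])

/-- A finite list of summands in all degrees of a variety which is built from hyperkähler varieties:
the places where all of them are ordinary have positive lower density. -/
theorem summands_main (hV : Built ℓ V) {κ : Type} [Finite κ] (m : κ → ℕ)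
    (R : ∀ k, Summand V (m k)) :
    0 < lowerDensity fun v : HeightOneSpectrum (𝓞 F) =>
      ∀ k, v ∉ (R k).bad ∧ ∀ t, (R k).ok v t → (R k).newton v t = (R k).hodge := by
  obtain ⟨δ, hδ, hev⟩ := point_main hV (algebraMap (𝓞 F) F)
  have hfin : {v : HeightOneSpectrum (𝓞 F) | ∃ k, v ∈ (R k).bad}.Finite := by
    have : {v : HeightOneSpectrum (𝓞 F) | ∃ k, v ∈ (R k).bad} = ⋃ k, (R k).bad := by
      ext v; simp
    rw [this]
    exact Set.finite_iUnion fun k => (R k).finite
  have h3 := dens_finite (fun v => ∃ k, v ∈ (R k).bad) hfin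
  refine lowerDensity_pos _ (δ / 2) (by positivity) ?_
  filter_upwards [hev, h3.eventually (gt_mem_nhds (show (0 : ℝ) < δ / 2 by positivity))] with
    N h1 h2
  have hle : dens (fun v : HeightOneSpectrum (𝓞 F) =>
        ∃ s : PrimeSpectrum (𝓞 F), s.asIdeal.IsMaximal ∧
          IsReduction (algebraMap (𝓞 F) F) v s.asIdeal ∧ V.Ord s) N ≤
      dens (fun v : HeightOneSpectrum (𝓞 F) =>
        ∀ k, v ∉ (R k).bad ∧ ∀ t, (R k).ok v t → (R k).newton v t = (R k).hodge) N +
      dens (fun v => ∃ k, v ∈ (R k).bad) N := by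
    refine le_trans (dens_mono (Q := fun v => _ ∨ _) ?_ N) (dens_or _ _ N)
    rintro v ⟨s, -, hs, hord⟩
    by_cases hb : ∃ k, v ∈ (R k).bad
    · exact Or.inr hb
    · push Not at hb
      refine Or.inl fun k => ⟨hb k, (R k).ord (hb k) ?_⟩
      rw [← eq_pt hs]
      exact hord (m k)
  linarith

/-- The intersection cohomology of a projective variety `X` over `F` in the degrees `0, ..., top`, where
`X` is the image of the smooth projective variety `V`: by the decomposition theorem `IH^n(X)` is a
direct summand of `H^n(V)`. -/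
structure IHSummands {F : Type} [Field F] [NumberField F] (V : Fam (𝓞 F)) where
  top : ℕ
  IH : ∀ n : Fin (top + 1), Summand V n

/-- The place `v` is ordinary for `IH^n(X)`, all `n`: it is not one of the finitely many exceptional
places, and the Newton polygon of the Frobenius on `IH^n(X)` is the Hodge-Tate polygon. -/
def IHSummands.OrdinaryAt {F : Type} [Field F] [NumberField F] {V : Fam (𝓞 F)}
    (X : IHSummands V) (v : HeightOneSpectrum (𝓞 F)) : Prop :=
  ∀ n, v ∉ (X.IH n).bad ∧ ∀ t, (X.IH n).ok v t → (X.IH n).newton v t = (X.IH n).hodge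

theorem ih_main (hV : Built ℓ V) {κ : Type} [Finite κ] (X : κ → IHSummands V) :
    0 < lowerDensity fun v : HeightOneSpectrum (𝓞 F) => ∀ k, (X k).OrdinaryAt v := by
  have h := summands_main hV (κ := Σ k, Fin ((X k).top + 1)) (fun x => (x.2 : ℕ))
    (fun x => (X x.1).IH x.2)
  have e : (fun v : HeightOneSpectrum (𝓞 F) => ∀ k, (X k).OrdinaryAt v) =
      fun v => ∀ x : Σ k, Fin ((X k).top + 1), v ∉ ((X x.1).IH x.2).bad ∧
        ∀ t, ((X x.1).IH x.2).ok v t → ((X x.1).IH x.2).newton v t = ((X x.1).IH x.2).hodge := by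
    funext v
    exact propext ⟨fun h x => h x.1 x.2, fun h k n => h ⟨k, n⟩⟩
  rw [e]
  exact h

end

end Pool.Agent.N397.HO
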